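import Pool.Agent.TH891.PR.P3

set_option autoImplicit false

/-! # The weighted number of bad `n` -/

namespace Pool.Agent.TH891.PR

open Finset Filter Topology
open Pool.Agent.H378R2 Pool.Agent.H387R2.MB
open Pool.Agent.H386R2.Artin (PP Good)

/-- the properties of modulus, class and shifts -/
structure Cfg (D : ℤ) {K : ℕ} (y W a0 H : ℕ) (t : Fin K → ℕ) : Prop where
  pos : 0 < W
  sqf : Squarefree W
  sm : ∀ q : ℕ, q.Prime → q ≤ y → q ∣ W
  cop : ∀ j, (a0 + t j).Coprime W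
  tH : ∀ j, 2 ≤ t j ∧ t j ≤ H
  inj : Function.Injective t
  dt : DT W.primeFactors t
  pr : ∀ n : ℕ, n ≡ a0 [MOD W] → W < n → ∀ h, 1 ≤ h → h ≤ H → (n + h).Prime → ∃ j, h = t j
  pm : ∀ n : ℕ, n ≡ a0 [MOD W] → ∀ j, ∀ q : ℕ, q.Prime → q ∣ W → q ∣ n + t j - 1 → q = 2
  jac : ∀ n : ℕ, n ≡ a0 [MOD W] → ∀ j, jacobiSym D (n + t j : ℕ) = -1

theorem cfg_exists {D : ℤ} (hD : Squarefree D) (hD4 : D % 4 = 1) (hD1 : D ≠ 1) (K : ℕ) {y : ℕ} (hy : 2 ≤ y)
    (hyD : D.natAbs ≤ y) (hyK : K ≤ y) : ∃ (W a0 H : ℕ) (t : Fin K → ℕ), Cfg D y W a0 H t := by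
  obtain ⟨W, a0, H, t, h1, h2, h3, h4, h5, h6, h7, h8, h9, h10⟩ := choice hD hD4 hD1 K hy hyD hyK
  exact ⟨W, a0, H, t, h1, h2, h3, h4, h5, h6, h7, h8, h9, h10⟩

open Classical in
theorem weight_sum {K : ℕ} {δ C1 X ε L : ℝ} {z y W a0 : ℕ} {t : Fin K → ℕ} (hC1 : 0 ≤ C1) (hy : 1 ≤ y)
    (hup : ∀ (W : ℕ) (E : Finset ℕ) (a0 : ℕ) (t : Fin K → ℕ), CS X z W E → DT E t →
      ∑ n ∈ Icc 1 ⌊3 * X⌋₊, nu X W a0 n * (if RA δ X t n then 1 else 0) ≤ C1 * QQ K X W E)
    (hcs : CS X z W W.primeFactors ∧ ∀ q : ℕ, q.Prime → ¬ q ∣ W → (q : ℝ) ≤ Real.log X →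
      CS X z (W * q) (insert q W.primeFactors))
    (hom : ∀ u : ℕ, u ≠ 0 → (u : ℝ) ≤ 4 * X →
      (#(u.primeFactors.filter (fun q => ⌊Real.log X⌋₊ < q)) : ℝ) / ⌊Real.log X⌋₊ + #u.primeFactors / Real.log X ≤ ε)
    (hLL : 0 < LL X) (hlog : 2 ≤ Real.log X) (hL : Real.log X ≤ L)
    (hsm : ∀ q : ℕ, q.Prime → q ≤ y → q ∣ W) (hdt : DT W.primeFactors t) (ht2 : ∀ j, 2 ≤ t j)
    (htX : ∀ j, (t j : ℝ) ≤ X) (hX : 0 < X) (j : Fin K) :
    ∑ n ∈ Icc 1 ⌊3 * X⌋₊, (nu X W a0 n * (if RA δ X t n then 1 else 0)) *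
      (∑ q ∈ (n + t j - 1).primeFactors.filter (fun q => ¬ q ∣ W), ((1 : ℝ) / q + 1 / L)) ≤
      C1 * QQ K X W W.primeFactors * (2 ^ K / y + ε) := by
  have hlog0 : 0 < Real.log X := by linarith
  have hL0 : 0 < L := by linarith
  have hpr : ∀ p ∈ W.primeFactors, p.Prime := fun p hp => Nat.prime_of_mem_primeFactors hp
  have hWpos := hcs.1.pos
  have hQ := QQ_nonneg K hLL (W := W) hpr
  obtain ⟨T, hT⟩ : ∃ T : ℕ, T = ⌊Real.log X⌋₊ := ⟨_, rfl⟩
  have hT0 : 0 < T := by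
    rw [hT]; exact Nat.floor_pos.2 (by linarith)
  have hTl : (T : ℝ) ≤ Real.log X := by rw [hT]; exact Nat.floor_le hlog0.le
  obtain ⟨Q, hQd⟩ : ∃ Q : ℝ, Q = QQ K X W W.primeFactors := ⟨_, rfl⟩
  rw [← hQd] at hQ ⊢
  set w : ℕ → ℝ := fun n => nu X W a0 n * (if RA δ X t n then 1 else 0) with hw
  have hw0 : ∀ n, 0 ≤ w n := by
    intro n
    apply mul_nonneg (nu_nonneg _ _ _ _)
    split_ifs <;> norm_num
  set Pq := ((T + 1).primesBelow).filter (fun q => ¬ q ∣ W) with hPq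
  have hpt : ∀ n ∈ Icc 1 ⌊3 * X⌋₊, w n * (∑ q ∈ (n + t j - 1).primeFactors.filter (fun q => ¬ q ∣ W), ((1 : ℝ) / q + 1 / L)) ≤
      ∑ q ∈ Pq, (1 : ℝ) / q * (w n * (if q ∣ n + t j - 1 then 1 else 0)) + ε * w n := by
    intro n hn
    rw [mem_Icc] at hn
    have hn3 : (n : ℝ) ≤ 3 * X := (Nat.le_floor_iff (by linarith)).1 hn.2
    have hu0 : n + t j - 1 ≠ 0 := by have := ht2 j; omega
    have hu4 : ((n + t j - 1 : ℕ) : ℝ) ≤ 4 * X := by
      have h1 : ((n + t j - 1 : ℕ) : ℝ) ≤ ((n + t j : ℕ) : ℝ) := by exact_mod_cast Nat.sub_le _ _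
      push_cast at h1
      have := htX j
      linarith
    have h1 := local_weight (W := W) (u := n + t j - 1) hT0 hL0
    have h2 := hom _ hu0 hu4
    rw [← hT] at h2
    have h3 : (#(n + t j - 1).primeFactors : ℝ) / L ≤ #(n + t j - 1).primeFactors / Real.log X := by
      gcongr
    have h4 : ∑ q ∈ (n + t j - 1).primeFactors.filter (fun q => ¬ q ∣ W), ((1 : ℝ) / q + 1 / L) ≤
        ∑ q ∈ Pq, (1 : ℝ) / q * (if q ∣ n + t j - 1 then 1 else 0) + ε := by
      refine h1.trans ?_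
      rw [hPq]
      linarith
    calc _ ≤ w n * (∑ q ∈ Pq, (1 : ℝ) / q * (if q ∣ n + t j - 1 then 1 else 0) + ε) :=
          mul_le_mul_of_nonneg_left h4 (hw0 n)
      _ = _ := by
          rw [mul_add, mul_sum]
          congr 1
          · apply sum_congr rfl
            intro q _
            ring
          · ring
  refine (sum_le_sum hpt).trans ?_
  rw [sum_add_distrib, sum_comm, ← mul_sum]
  have hA : ∑ n ∈ Icc 1 ⌊3 * X⌋₊, w n ≤ C1 * Q := by
    rw [hQd]; exact hup W W.primeFactors a0 t hcs.1 hdt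
  have hB : ∀ q ∈ Pq, ∑ n ∈ Icc 1 ⌊3 * X⌋₊, (1 : ℝ) / q * (w n * (if q ∣ n + t j - 1 then 1 else 0)) ≤
      C1 * Q * 2 ^ K * (1 / (q : ℝ) ^ 2) := by
    intro q hq
    rw [hPq, mem_filter, Nat.mem_primesBelow] at hq
    obtain ⟨⟨hqT, hqp⟩, hqW⟩ := hq
    have hq0 : (0:ℝ) < q := by exact_mod_cast hqp.pos
    have hql : (q : ℝ) ≤ Real.log X := by
      refine le_trans ?_ hTl
      exact_mod_cast (by omega : q ≤ T)
    obtain ⟨a1, ha1⟩ := nu_le_class (X := X) (δ := δ) (a0 := a0) hWpos hqp hqW t (t j - 1)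
    have hdt' : DT (insert q W.primeFactors) t := by
      intro i i' hii p hp hpE
      exact hdt i i' hii p hp (fun h => hpE (mem_insert_of_mem h))
    have h1 := hup (W * q) (insert q W.primeFactors) a1 t (hcs.2 q hqp hqW hql) hdt'
    have h2 := QQ_insert K hLL (W := W) hWpos hqp hpr (fun h => hqW (Nat.dvd_of_mem_primeFactors h))
    rw [← mul_sum]
    have h3 : ∑ n ∈ Icc 1 ⌊3 * X⌋₊, w n * (if q ∣ n + t j - 1 then 1 else 0) ≤ C1 * (2 ^ K / q * Q) := by
      calc _ ≤ ∑ n ∈ Icc 1 ⌊3 * X⌋₊, nu X (W * q) a1 n * (if RA δ X t n then 1 else 0) := by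
            apply sum_le_sum
            intro n _
            refine le_trans (le_of_eq ?_) (ha1 n)
            have e : n + t j - 1 = n + (t j - 1) := by have := ht2 j; omega
            simp only [hw]
            rw [mul_assoc, e]
            congr 1
            by_cases hc1 : RA δ X t n
            · by_cases hc2 : q ∣ n + (t j - 1)
              · simp [hc1, hc2]
              · simp [hc1, hc2]
            · simp [hc1]
        _ ≤ _ := h1
        _ ≤ _ := by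
            rw [hQd]
            exact mul_le_mul_of_nonneg_left h2 hC1
    calc 1 / (q:ℝ) * ∑ n ∈ Icc 1 ⌊3 * X⌋₊, w n * (if q ∣ n + t j - 1 then 1 else 0) ≤ 1 / (q:ℝ) * (C1 * (2 ^ K / q * Q)) :=
          mul_le_mul_of_nonneg_left h3 (by positivity)
      _ = _ := by field_simp
  have hε : 0 ≤ ε := by
    have := hom 1 one_ne_zero (by
      push_cast
      have := htX j
      have h2 := ht2 j
      have h3 : (2:ℝ) ≤ t j := by exact_mod_cast h2
      linarith)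
    refine le_trans ?_ this
    positivity
  have h5 := sum_q2 (T := T) hy hsm
  rw [← hPq] at h5
  calc _ ≤ ∑ q ∈ Pq, C1 * Q * 2 ^ K * (1 / (q : ℝ) ^ 2) + ε * (C1 * Q) :=
        add_le_add (sum_le_sum hB) (mul_le_mul_of_nonneg_left hA hε)
    _ = C1 * Q * 2 ^ K * ∑ q ∈ Pq, 1 / (q : ℝ) ^ 2 + ε * (C1 * Q) := by rw [mul_sum]
    _ ≤ C1 * Q * 2 ^ K * (1 / y) + ε * (C1 * Q) := by gcongr
    _ = _ := by ring

open Classical in
/-- the weighted number of `n` with a prime `n + t j` for which `m` is bad -/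
noncomputable def Sb {K : ℕ} (δ X : ℝ) (W a0 : ℕ) (t : Fin K → ℕ) (B : ℤ) (R m : ℕ) : ℝ :=
  ∑ n ∈ Icc 1 ⌊3 * X⌋₊, nu X W a0 n *
    (if RA δ X t n ∧ ∃ j, (n + t j).Prime ∧ BadM B R (n + t j) m then 1 else 0)

open Classical in
/-- the number of bad `m` for given `n` -/
theorem bad_point {D : ℤ} {K : ℕ} {X L : ℝ} {y W a0 H : ℕ} {t : Fin K → ℕ} (hc : Cfg D y W a0 H t) (b : ℤ) {R : ℕ}
    (hR : R ≤ y) (hb0 : b ≠ 0) (hbX : (b.natAbs : ℝ) ≤ X) (hX2 : 2 ≤ X) (hHX : (H : ℝ) ≤ X) (hL0 : 0 < L)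
    (E S : Finset ℕ) (hE : ∀ m ∈ E, 1 ≤ m ∧ (m : ℝ) ≤ X)
    (hS : ∀ p ∈ PP ⌊4 * X⌋₊, p ∉ S → Good E ((#E : ℝ) / L) p) {n : ℕ} (hn : n ∈ Icc 1 ⌊3 * X⌋₊)
    (hn0 : nu X W a0 n ≠ 0) :
    (#(E.filter (fun m => ∃ j, (n + t j).Prime ∧ BadM (D * b ^ 2) R (n + t j) m)) : ℝ) ≤
      ∑ j, ((if n + t j ∈ S then (#E : ℝ) else 0) + R * #E *
        ∑ q ∈ (n + t j - 1).primeFactors.filter (fun q => ¬ q ∣ W), ((1 : ℝ) / q + 1 / L)) := by
  have hX0 : 0 < X := by linarith
  rw [mem_Icc] at hn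
  have hn3 : (n : ℝ) ≤ 3 * X := (Nat.le_floor_iff (by linarith)).1 hn.2
  have hmod : n ≡ a0 [MOD W] := by
    by_contra h
    apply hn0
    unfold nu
    rw [if_neg h]
  have hnX : X < n := by
    by_contra hle
    push Not at hle
    apply hn0
    unfold nu
    rw [Phi_eq_zero_of_le (by positivity) (by rw [div_le_one hX0]; exact hle), ite_self]
  have h1 : (#(E.filter (fun m => ∃ j, (n + t j).Prime ∧ BadM (D * b ^ 2) R (n + t j) m)) : ℝ) ≤
      ∑ j, (#(E.filter (fun m => (n + t j).Prime ∧ BadM (D * b ^ 2) R (n + t j) m)) : ℝ) := by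
    have hsub : E.filter (fun m => ∃ j, (n + t j).Prime ∧ BadM (D * b ^ 2) R (n + t j) m) ⊆
        univ.biUnion (fun j => E.filter (fun m => (n + t j).Prime ∧ BadM (D * b ^ 2) R (n + t j) m)) := by
      intro m hm
      rw [mem_filter] at hm
      obtain ⟨hmE, j, hj⟩ := hm
      rw [mem_biUnion]
      exact ⟨j, mem_univ j, mem_filter.2 ⟨hmE, hj⟩⟩
    exact_mod_cast (card_le_card hsub).trans card_biUnion_le
  refine h1.trans (sum_le_sum fun j _ => ?_)
  have hG0 : 0 ≤ R * #E * ∑ q ∈ (n + t j - 1).primeFactors.filter (fun q => ¬ q ∣ W), ((1 : ℝ) / q + 1 / L) := by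
    positivity
  by_cases hp : (n + t j).Prime
  · have hcard : (#(E.filter (fun m => (n + t j).Prime ∧ BadM (D * b ^ 2) R (n + t j) m)) : ℝ) ≤ #E := by
      exact_mod_cast card_le_card (filter_subset _ _)
    by_cases hpS : n + t j ∈ S
    · rw [if_pos hpS]
      linarith
    · rw [if_neg hpS, zero_add]
      obtain ⟨p, hpd⟩ : ∃ p : ℕ, p = n + t j := ⟨_, rfl⟩
      have hpX : X < p := by
        rw [hpd]; push_cast
        have : (0:ℝ) ≤ t j := Nat.cast_nonneg _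
        linarith
      have hp4 : p ∈ PP ⌊4 * X⌋₊ := by
        unfold PP
        rw [mem_filter, mem_range]
        refine ⟨?_, hpd ▸ hp⟩
        have : p ≤ ⌊4 * X⌋₊ := by
          apply Nat.le_floor
          rw [hpd]
          push_cast
          have h2 : (t j : ℝ) ≤ H := by exact_mod_cast (hc.tH j).2
          linarith
        omega
      rw [← hpd] at hp hpS hG0 ⊢
      have hgood := hS p hp4 hpS
      have hjac := hc.jac n hmod j
      rw [← hpd] at hjac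
      have hpm := hc.pm n hmod j
      rw [← hpd] at hpm
      have hp2 : p ≠ 2 := by
        rintro rfl
        have : (2:ℝ) < 2 := by
          calc (2:ℝ) ≤ X := hX2
            _ < ((2:ℕ):ℝ) := hpX
            _ = 2 := by norm_num
        linarith
      have hbp : ¬ (p : ℤ) ∣ b := by
        intro hd
        have h2 := Int.natAbs_dvd_natAbs.2 hd
        rw [Int.natAbs_natCast] at h2
        have h3 := Nat.le_of_dvd (Int.natAbs_pos.2 hb0) h2
        have h4 : (p : ℝ) ≤ b.natAbs := by exact_mod_cast h3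
        linarith
      have hEp : ∀ m ∈ E, (m : ZMod p) ≠ 0 := by
        intro m hm hm0
        rw [ZMod.natCast_eq_zero_iff] at hm0
        have h3 := Nat.le_of_dvd (hE m hm).1 hm0
        have h4 : (p : ℝ) ≤ m := by exact_mod_cast h3
        have h5 := (hE m hm).2
        linarith
      have h5 := bad_total hp E ((#E : ℝ) / L) (by positivity) hgood D b R W hp2 hjac hbp hEp
        (fun q hq hqR => hc.sm q hq (hqR.trans hR)) hpm
      have h6 : E.filter (fun m => p.Prime ∧ BadM (D * b ^ 2) R p m) = E.filter (fun m => BadM (D * b ^ 2) R p m) := by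
        apply filter_congr
        intro m _
        exact ⟨fun h => h.2, fun h => ⟨hp, h⟩⟩
      rw [h6]
      refine h5.trans (le_of_eq ?_)
      rw [mul_assoc]
      congr 1
      rw [mul_sum]
      apply sum_congr rfl
      intro q _
      ring
  · have : E.filter (fun m => (n + t j).Prime ∧ BadM (D * b ^ 2) R (n + t j) m) = ∅ := by
      apply filter_eq_empty_iff.2
      intro m _ h
      exact hp h.1
    rw [this, card_empty]
    push_cast
    apply add_nonneg _ hG0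
    split_ifs <;> positivity

open Classical in
/-- the sum over the set `E` of multipliers -/
theorem sum_Sb {D : ℤ} {K : ℕ} {δ C1 X ε L : ℝ} {z y W a0 H : ℕ} {t : Fin K → ℕ} (hc : Cfg D y W a0 H t)
    (hC1 : 0 ≤ C1) (hy : 1 ≤ y)
    (hup : ∀ (W : ℕ) (E : Finset ℕ) (a0 : ℕ) (t : Fin K → ℕ), CS X z W E → DT E t →
      ∑ n ∈ Icc 1 ⌊3 * X⌋₊, nu X W a0 n * (if RA δ X t n then 1 else 0) ≤ C1 * QQ K X W E)
    (hcs : CS X z W W.primeFactors ∧ ∀ q : ℕ, q.Prime → ¬ q ∣ W → (q : ℝ) ≤ Real.log X →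
      CS X z (W * q) (insert q W.primeFactors))
    (hom : ∀ u : ℕ, u ≠ 0 → (u : ℝ) ≤ 4 * X →
      (#(u.primeFactors.filter (fun q => ⌊Real.log X⌋₊ < q)) : ℝ) / ⌊Real.log X⌋₊ + #u.primeFactors / Real.log X ≤ ε)
    (hLL : 0 < LL X) (hlog : 2 ≤ Real.log X) (hL : Real.log X ≤ L)
    (b : ℤ) {R : ℕ} (hR : R ≤ y) (hb0 : b ≠ 0) (hbX : (b.natAbs : ℝ) ≤ X) (hX2 : 2 ≤ X) (hHX : (H : ℝ) ≤ X)
    (E S : Finset ℕ) (hE : ∀ m ∈ E, 1 ≤ m ∧ (m : ℝ) ≤ X)
    (hS : ∀ p ∈ PP ⌊4 * X⌋₊, p ∉ S → Good E ((#E : ℝ) / L) p) :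
    ∑ m ∈ E, Sb δ X W a0 t (D * b ^ 2) R m ≤
      #E * (K * #S + R * K * (C1 * QQ K X W W.primeFactors * (2 ^ K / y + ε))) := by
  have hlog0 : 0 < Real.log X := by linarith
  have hL0 : 0 < L := by linarith
  have hX0 : 0 < X := by linarith
  set w : ℕ → ℝ := fun n => nu X W a0 n * (if RA δ X t n then 1 else 0) with hw
  have hw0 : ∀ n, 0 ≤ w n := by
    intro n
    apply mul_nonneg (nu_nonneg _ _ _ _)
    split_ifs <;> norm_num
  have hw1 : ∀ n, w n ≤ 1 := by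
    intro n
    have h1 : nu X W a0 n ≤ 1 := by
      unfold nu
      split_ifs
      · exact Phi_le_one _
      · norm_num
    have h2 : (if RA δ X t n then (1:ℝ) else 0) ≤ 1 := by split_ifs <;> norm_num
    have h3 : (0:ℝ) ≤ (if RA δ X t n then (1:ℝ) else 0) := by split_ifs <;> norm_num
    calc w n ≤ 1 * 1 := mul_le_mul h1 h2 h3 zero_le_one
      _ = 1 := one_mul 1
  have h1 : ∑ m ∈ E, Sb δ X W a0 t (D * b ^ 2) R m =
      ∑ n ∈ Icc 1 ⌊3 * X⌋₊, w n * (#(E.filter (fun m => ∃ j, (n + t j).Prime ∧ BadM (D * b ^ 2) R (n + t j) m)) : ℝ) := by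
    unfold Sb
    rw [sum_comm]
    apply sum_congr rfl
    intro n _
    rw [card_filter]
    push_cast
    rw [mul_sum]
    apply sum_congr rfl
    intro m _
    simp only [hw]
    rw [mul_assoc]
    congr 1
    by_cases hc1 : RA δ X t n
    · by_cases hc2 : ∃ j, (n + t j).Prime ∧ BadM (D * b ^ 2) R (n + t j) m
      · rw [if_pos hc1, if_pos ⟨hc1, hc2⟩, one_mul, if_pos hc2]
      · rw [if_pos hc1, if_neg (show ¬ (RA δ X t n ∧ ∃ j, (n + t j).Prime ∧ BadM (D * b ^ 2) R (n + t j) m) from fun h => hc2 h.2),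
          if_neg hc2, mul_zero]
    · rw [if_neg hc1, if_neg (show ¬ (RA δ X t n ∧ ∃ j, (n + t j).Prime ∧ BadM (D * b ^ 2) R (n + t j) m) from fun h => hc1 h.1),
        zero_mul]
  rw [h1]
  have h2 : ∀ n ∈ Icc 1 ⌊3 * X⌋₊, w n * (#(E.filter (fun m => ∃ j, (n + t j).Prime ∧ BadM (D * b ^ 2) R (n + t j) m)) : ℝ) ≤
      ∑ j, ((#E : ℝ) * (if n + t j ∈ S then 1 else 0) + R * #E *
        (w n * ∑ q ∈ (n + t j - 1).primeFactors.filter (fun q => ¬ q ∣ W), ((1 : ℝ) / q + 1 / L))) := by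
    intro n hn
    by_cases hn0 : nu X W a0 n = 0
    · have hwn : w n = 0 := by simp only [hw]; rw [hn0, zero_mul]
      rw [hwn, zero_mul]
      apply sum_nonneg
      intro j _
      rw [zero_mul, mul_zero, add_zero]
      split_ifs <;> positivity
    · have h3 := bad_point hc b hR hb0 hbX hX2 hHX hL0 E S hE hS hn hn0
      calc _ ≤ w n * ∑ j, ((if n + t j ∈ S then (#E : ℝ) else 0) + R * #E *
        ∑ q ∈ (n + t j - 1).primeFactors.filter (fun q => ¬ q ∣ W), ((1 : ℝ) / q + 1 / L)) :=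
            mul_le_mul_of_nonneg_left h3 (hw0 n)
        _ ≤ _ := by
            rw [mul_sum]
            apply sum_le_sum
            intro j _
            rw [mul_add]
            apply add_le_add
            · split_ifs
              · rw [mul_one]
                calc w n * #E ≤ 1 * #E := mul_le_mul_of_nonneg_right (hw1 n) (Nat.cast_nonneg _)
                  _ = _ := one_mul _
              · rw [mul_zero, mul_zero]
            · apply le_of_eq; ring
  refine (sum_le_sum h2).trans ?_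
  rw [sum_comm]
  have h4 : ∀ j : Fin K, ∑ n ∈ Icc 1 ⌊3 * X⌋₊, ((#E : ℝ) * (if n + t j ∈ S then 1 else 0) + R * #E *
        (w n * ∑ q ∈ (n + t j - 1).primeFactors.filter (fun q => ¬ q ∣ W), ((1 : ℝ) / q + 1 / L))) ≤
      #E * #S + R * #E * (C1 * QQ K X W W.primeFactors * (2 ^ K / y + ε)) := by
    intro j
    rw [sum_add_distrib, ← mul_sum, ← mul_sum]
    apply add_le_add
    · apply mul_le_mul_of_nonneg_left _ (Nat.cast_nonneg _)
      rw [← sum_filter, sum_const, nsmul_eq_mul, mul_one]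
      have : #((Icc 1 ⌊3 * X⌋₊).filter (fun n => n + t j ∈ S)) ≤ #S := by
        apply card_le_card_of_injOn (fun n => n + t j)
        · intro n hn
          rw [mem_coe, mem_filter] at hn
          exact hn.2
        · intro n _ n' _ hnn
          beta_reduce at hnn
          omega
      exact_mod_cast this
    · apply mul_le_mul_of_nonneg_left _ (by positivity)
      exact weight_sum hC1 hy hup hcs hom hLL hlog hL hc.sm hc.dt (fun i => (hc.tH i).1)
        (fun i => (by exact_mod_cast (hc.tH i).2 : ((t i : ℕ) : ℝ) ≤ H).trans hHX) hX0 j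
  refine (sum_le_sum fun j _ => h4 j).trans (le_of_eq ?_)
  rw [sum_const, card_univ, Fintype.card_fin, nsmul_eq_mul]
  ring

end Pool.Agent.TH891.PR
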