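import Pool.Agent.H386R2.Artin.LocalCount

set_option autoImplicit false

/-! # Local facts on primitive roots -/

namespace Pool.Agent.TH891.PR

open Finset
open Pool.Agent.H386R2.Artin (Good power_residue)

section

variable {p : ℕ} [hp : Fact p.Prime]

lemma exists_prime_of_order {a : ZMod p} (ha : a ≠ 0) (h : orderOf a ≠ p - 1) :
    ∃ q : ℕ, q.Prime ∧ q ∣ p - 1 ∧ a ^ ((p - 1) / q) = 1 := by
  by_contra hcon
  push Not at hcon
  apply h
  apply orderOf_eq_of_pow_and_pow_div_prime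
  · have := hp.out.two_le
    omega
  · exact ZMod.pow_card_sub_one_eq_one ha
  · intro q hq hqd
    exact hcon q hq hqd

lemma exists_inv {q r : ℕ} (hq : q.Prime) (hqr : ¬ q ∣ r) : ∃ s t : ℕ, s * r = 1 + q * t := by
  have hcop : Nat.Coprime r q := (Nat.coprime_comm.1 ((Nat.Prime.coprime_iff_not_dvd hq).2 hqr))
  obtain ⟨s, -, hs⟩ := Nat.exists_mul_mod_eq_one_of_coprime hcop hq.one_lt
  refine ⟨s, r * s / q, ?_⟩
  have := Nat.div_add_mod (r * s) q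
  rw [hs] at this
  rw [mul_comm s r]
  omega

lemma pow_reduce {q r s t : ℕ} (hq : q ∣ p - 1) (hs : s * r = 1 + q * t) {B m : ZMod p}
    (hm : m ≠ 0) (h : (B * m ^ r) ^ ((p - 1) / q) = 1) : (B ^ s * m) ^ ((p - 1) / q) = 1 := by
  obtain ⟨d, hd⟩ := hq
  have hp1 : 0 < p - 1 := by have := hp.out.two_le; omega
  have hq0 : 0 < q := by
    rcases Nat.eq_zero_or_pos q with h0 | h0
    · rw [h0, zero_mul] at hd; omega
    · exact h0
  have e : (p - 1) / q = d := by rw [hd, Nat.mul_div_cancel_left _ hq0]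
  rw [e] at h ⊢
  have h1 : (m ^ t) ^ (q * d) = 1 := by
    rw [← hd]
    exact ZMod.pow_card_sub_one_eq_one (pow_ne_zero _ hm)
  have h2 : (B ^ s * m) ^ d * (m ^ t) ^ (q * d) = ((B * m ^ r) ^ d) ^ s := by
    rw [← pow_mul, ← pow_mul, mul_pow, mul_pow, mul_assoc, ← pow_add, ← pow_mul, ← pow_mul]
    have e1 : d + t * (q * d) = r * (d * s) := by
      have : d * (s * r) = d * (1 + q * t) := by rw [hs]
      nlinarith
    rw [e1, mul_comm s d]
  rw [h1, mul_one, h, one_pow] at h2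
  exact h2

open Classical in
lemma residue_count (E : Finset ℕ) (M : ℝ) (hM : 0 ≤ M) (hG : Good E M p) (B : ℤ) (hB : ¬ (p : ℤ) ∣ B)
    (hE : ∀ m ∈ E, (m : ZMod p) ≠ 0) {q r : ℕ} (hq : q.Prime) (hqp : q ∣ p - 1) (hqr : ¬ q ∣ r) :
    (#(E.filter fun m : ℕ => ((B * (m : ℤ) ^ r : ℤ) : ZMod p) ^ ((p - 1) / q) = 1) : ℝ) ≤ #E / q + M := by
  obtain ⟨s, t, hst⟩ := exists_inv hq hqr
  have hBs : ¬ (p : ℤ) ∣ B ^ s := by
    intro h
    exact hB ((Nat.prime_iff_prime_int.1 hp.out).dvd_of_dvd_pow h)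
  have h1 := power_residue E M (B ^ s) hM hG hBs q hqp
  have h2 := (abs_le.1 h1).2
  have h3 : (#(E.filter fun m : ℕ => ((B * (m : ℤ) ^ r : ℤ) : ZMod p) ^ ((p - 1) / q) = 1) : ℝ) ≤
      (#(E.filter fun m : ℕ => ((B ^ s * (m : ℤ) : ℤ) : ZMod p) ^ ((p - 1) / q) = 1) : ℝ) := by
    have : E.filter (fun m : ℕ => ((B * (m : ℤ) ^ r : ℤ) : ZMod p) ^ ((p - 1) / q) = 1) ⊆
        E.filter (fun m : ℕ => ((B ^ s * (m : ℤ) : ℤ) : ZMod p) ^ ((p - 1) / q) = 1) := by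
      intro m hm
      rw [mem_filter] at hm ⊢
      refine ⟨hm.1, ?_⟩
      have h4 := hm.2
      push_cast at h4 ⊢
      exact pow_reduce hqp hst (hE m hm.1) h4
    exact_mod_cast card_le_card this
  have hq0 : (0:ℝ) < q := by exact_mod_cast hq.pos
  have h5 : (#(E.filter fun m : ℕ => (m : ZMod p) ≠ 0) : ℝ) / q ≤ #E / q := by
    apply div_le_div_of_nonneg_right _ hq0.le
    exact_mod_cast card_le_card (filter_subset _ _)
  linarith

/-- with `D` a nonresidue, the square class excludes `q = 2` -/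
lemma not_two {D b : ℤ} {m r : ℕ} (hr : Even r) (hp2 : p ≠ 2) (hD : legendreSym p D = -1)
    (hbm : ((b * (m : ℤ) ^ (r / 2) : ℤ) : ZMod p) ≠ 0) :
    ((D * b ^ 2 * (m : ℤ) ^ r : ℤ) : ZMod p) ^ ((p - 1) / 2) ≠ 1 := by
  intro h
  obtain ⟨u, hu⟩ := hr
  have hr2 : r / 2 = u := by omega
  rw [hr2] at hbm
  have e : ((D * b ^ 2 * (m : ℤ) ^ r : ℤ) : ZMod p) = (D : ZMod p) * ((b * (m : ℤ) ^ u : ℤ) : ZMod p) ^ 2 := by
    rw [hu]
    push_cast
    ring
  have hodd : (p - 1) / 2 = p / 2 := by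
    have := hp.out.eq_two_or_odd
    omega
  have h2 : 2 * (p / 2) = p - 1 := by
    have := hp.out.eq_two_or_odd
    omega
  rw [e, mul_pow, ← pow_mul, hodd, h2, ZMod.pow_card_sub_one_eq_one hbm, mul_one] at h
  rw [← legendreSym.eq_pow, hD] at h
  push_cast at h
  have h3 : (2 : ZMod p) = 0 := by
    have : (1 : ZMod p) + 1 = 0 := by
      nth_rewrite 1 [← h]
      ring
    rw [← this]; norm_num
  have h4 : (p : ℕ) ∣ 2 := by
    rw [← ZMod.natCast_eq_zero_iff]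
    exact_mod_cast h3
  exact hp2 ((Nat.prime_dvd_prime_iff_eq hp.out Nat.prime_two).1 h4)

end

/-- some exponent `r ≤ R`, `r` even, for which `B m^r` is not a primitive root -/
def BadM (B : ℤ) (R p m : ℕ) : Prop :=
  ∃ r : ℕ, Even r ∧ 0 < r ∧ r ≤ R ∧ orderOf ((B * (m : ℤ) ^ r : ℤ) : ZMod p) ≠ p - 1

open Classical in
theorem bad_total {p : ℕ} (hp : p.Prime) (E : Finset ℕ) (M : ℝ) (hM : 0 ≤ M) (hG : Good E M p) (D b : ℤ) (R W : ℕ)
    (hp2 : p ≠ 2) (hD : jacobiSym D p = -1) (hb : ¬ (p : ℤ) ∣ b)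
    (hE : ∀ m ∈ E, (m : ZMod p) ≠ 0) (hW : ∀ q : ℕ, q.Prime → q ≤ R → q ∣ W)
    (hWp : ∀ q : ℕ, q.Prime → q ∣ W → q ∣ p - 1 → q = 2) :
    (#(E.filter fun m : ℕ => BadM (D * b ^ 2) R p m) : ℝ) ≤
      R * ∑ q ∈ (p - 1).primeFactors.filter (fun q => ¬ q ∣ W), (#E / q + M) := by
  have : Fact p.Prime := ⟨hp⟩
  rw [← jacobiSym.legendreSym.to_jacobiSym] at hD
  have hDp : ¬ (p : ℤ) ∣ D := by
    intro h
    rw [← ZMod.intCast_zmod_eq_zero_iff_dvd, ← legendreSym.eq_zero_iff] at h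
    rw [h] at hD
    norm_num at hD
  have hpi : Prime (p : ℤ) := Nat.prime_iff_prime_int.1 hp
  have hB : ¬ (p : ℤ) ∣ D * b ^ 2 := by
    intro h
    rcases hpi.dvd_or_dvd h with h | h
    · exact hDp h
    · exact hb (hpi.dvd_of_dvd_pow h)
  have hb0 : (b : ZMod p) ≠ 0 := by rwa [Ne, ZMod.intCast_zmod_eq_zero_iff_dvd]
  have hB0 : ((D * b ^ 2 : ℤ) : ZMod p) ≠ 0 := by rwa [Ne, ZMod.intCast_zmod_eq_zero_iff_dvd]
  have hsub : E.filter (fun m : ℕ => BadM (D * b ^ 2) R p m) ⊆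
      (Icc 1 R).biUnion (fun r => ((p - 1).primeFactors.filter (fun q => ¬ q ∣ W)).biUnion (fun q =>
        if q ∣ r then ∅ else
        E.filter (fun m : ℕ => ((D * b ^ 2 * (m : ℤ) ^ r : ℤ) : ZMod p) ^ ((p - 1) / q) = 1))) := by
    intro m hm
    rw [mem_filter] at hm
    obtain ⟨hmE, r, hre, hr0, hrR, hord⟩ := hm
    have hm0 := hE m hmE
    have ha : ((D * b ^ 2 * (m : ℤ) ^ r : ℤ) : ZMod p) ≠ 0 := by
      have : ((D * b ^ 2 * (m : ℤ) ^ r : ℤ) : ZMod p) = ((D * b ^ 2 : ℤ) : ZMod p) * (m : ZMod p) ^ r := by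
        push_cast; ring
      rw [this]
      exact mul_ne_zero hB0 (pow_ne_zero _ hm0)
    obtain ⟨q, hq, hqd, hq1⟩ := exists_prime_of_order ha hord
    have hqW : ¬ q ∣ W := by
      intro hqW
      have hq2 := hWp q hq hqW hqd
      rw [hq2] at hq1
      refine not_two hre hp2 hD ?_ hq1
      push_cast
      exact mul_ne_zero hb0 (pow_ne_zero _ hm0)
    have hqr : ¬ q ∣ r := by
      intro h
      exact hqW (hW q hq ((Nat.le_of_dvd hr0 h).trans hrR))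
    rw [mem_biUnion]
    refine ⟨r, mem_Icc.2 ⟨hr0, hrR⟩, ?_⟩
    rw [mem_biUnion]
    have hp1 : p - 1 ≠ 0 := by have := hp.two_le; omega
    refine ⟨q, mem_filter.2 ⟨Nat.mem_primeFactors.2 ⟨hq, hqd, hp1⟩, hqW⟩, ?_⟩
    rw [if_neg hqr, mem_filter]
    exact ⟨hmE, hq1⟩
  have h1 : (#(E.filter fun m : ℕ => BadM (D * b ^ 2) R p m) : ℝ) ≤
      ∑ r ∈ Icc 1 R, ∑ q ∈ (p - 1).primeFactors.filter (fun q => ¬ q ∣ W), (#(if q ∣ r then ∅ else
        E.filter (fun m : ℕ => ((D * b ^ 2 * (m : ℤ) ^ r : ℤ) : ZMod p) ^ ((p - 1) / q) = 1)) : ℝ) := by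
    have := (card_le_card hsub).trans (card_biUnion_le.trans (sum_le_sum fun r _ => card_biUnion_le))
    exact_mod_cast this
  refine h1.trans ?_
  have h2 : ∀ r ∈ Icc 1 R, ∑ q ∈ (p - 1).primeFactors.filter (fun q => ¬ q ∣ W), (#(if q ∣ r then ∅ else
        E.filter (fun m : ℕ => ((D * b ^ 2 * (m : ℤ) ^ r : ℤ) : ZMod p) ^ ((p - 1) / q) = 1)) : ℝ) ≤
        ∑ q ∈ (p - 1).primeFactors.filter (fun q => ¬ q ∣ W), ((#E : ℝ) / q + M) := by
    intro r _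
    apply sum_le_sum
    intro q hq
    rw [mem_filter, Nat.mem_primeFactors] at hq
    split_ifs with hqr
    · rw [card_empty]
      push_cast
      positivity
    · exact residue_count E M hM hG (D * b ^ 2) hB hE hq.1.1 hq.1.2.1 hqr
  refine (sum_le_sum h2).trans ?_
  rw [sum_const, nsmul_eq_mul, Nat.card_Icc, Nat.add_sub_cancel]

end Pool.Agent.TH891.PR
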