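import Pool.Agent.H387R2.MB10

set_option autoImplicit false

/-! # A residue class with `(D/p) = -1` and `p - 1` without small odd prime factors -/

namespace Pool.Agent.TH891.PR

open Finset
open Pool.Agent.H387R2.MB
open Pool.Agent.H387R2 (Uni.WW Uni.WW_pos)

lemma jacobi_flip {D : ℤ} (hD : D % 4 = 1) {n : ℕ} (hn : Odd n) :
    jacobiSym D n = jacobiSym (n : ℤ) D.natAbs := by
  rcases le_or_gt 0 D with h | h
  · have e : D = (D.natAbs : ℤ) := by omega
    have h4 : D.natAbs % 4 = 1 := by omega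
    conv_lhs => rw [e]
    exact jacobiSym.quadratic_reciprocity_one_mod_four h4 hn
  · have e : D = -(D.natAbs : ℤ) := by omega
    have h4 : D.natAbs % 4 = 3 := by omega
    have hodd : Odd D.natAbs := by
      rw [Nat.odd_iff]; omega
    conv_lhs => rw [e]
    rw [jacobiSym.neg _ hn]
    rcases Nat.odd_mod_four_iff.1 (Nat.odd_iff.1 hn) with h1 | h3
    · rw [ZMod.χ₄_nat_one_mod_four h1, one_mul]
      exact jacobiSym.quadratic_reciprocity_one_mod_four' hodd h1
    · rw [ZMod.χ₄_nat_three_mod_four h3, jacobiSym.quadratic_reciprocity_three_mod_four h4 h3]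
      ring

lemma exists_u {q : ℕ} (hq : q.Prime) (hq5 : 5 ≤ q) :
    ∃ u : ℕ, ¬ q ∣ u ∧ ¬ (u ≡ 1 [MOD q]) ∧ jacobiSym u q = - jacobiSym (-1) q := by
  have : Fact q.Prime := ⟨hq⟩
  have hodd : Odd q := hq.odd_of_ne_two (by omega)
  have hcop : Int.gcd (-1) q = 1 := by simp
  rcases jacobiSym.eq_one_or_neg_one hcop with h | h
  · -- a nonresidue
    have hchar : ringChar (ZMod q) ≠ 2 := by
      rw [ZMod.ringChar_zmod_n]; omega
    obtain ⟨a, ha⟩ := FiniteField.exists_nonsquare hchar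
    have hu : jacobiSym (a.val : ℤ) q = -1 := by
      rw [ZMod.nonsquare_iff_jacobiSym_eq_neg_one]
      push_cast
      rwa [ZMod.natCast_zmod_val]
    refine ⟨a.val, ?_, ?_, ?_⟩
    · intro hd
      have h2 : ((a.val : ℤ)) % q = 0 % q := by
        rw [Int.zero_emod]
        exact Int.emod_eq_zero_of_dvd (Int.natCast_dvd_natCast.2 hd)
      have h3 := jacobiSym.mod_left' h2
      rw [jacobiSym.zero_left hq.one_lt, hu] at h3
      norm_num at h3
    · intro hd
      have h2 : ((a.val : ℤ)) % q = 1 % q := by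
        have := (Int.natCast_modEq_iff.2 hd)
        exact_mod_cast this
      have h3 := jacobiSym.mod_left' h2
      rw [jacobiSym.one_left, hu] at h3
      norm_num at h3
    · rw [hu, h]
  · refine ⟨4, ?_, ?_, ?_⟩
    · intro hd
      have := Nat.le_of_dvd (by norm_num) hd
      omega
    · intro hd
      have h2 : (q : ℤ) ∣ 4 - 1 := by
        have := (Nat.modEq_iff_dvd.1 hd.symm)
        exact_mod_cast this
      have h3 : q ∣ 3 := by
        have h4 : (q : ℤ) ∣ ((3 : ℕ) : ℤ) := by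
          have e : ((3 : ℕ) : ℤ) = 4 - 1 := by norm_num
          rw [e]; exact h2
        exact Int.natCast_dvd_natCast.1 h4
      have := Nat.le_of_dvd (by norm_num) h3
      omega
    · rw [h]
      have := jacobiSym.at_four hodd
      push_cast
      rw [this]

lemma sqf_dvd_WW {y n : ℕ} (hn : Squarefree n) (hny : n ≤ y) : n ∣ Uni.WW y := by
  rw [← Nat.prod_primeFactors_of_squarefree hn]
  refine dvd_trans (prod_dvd_prod_of_subset _ _ _ ?_) (Nat.prod_primeFactors_dvd (Uni.WW y))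
  intro p hp
  rw [Nat.mem_primeFactors] at hp ⊢
  refine ⟨hp.1, (dvd_WW hp.1).2 ((Nat.le_of_dvd (Nat.pos_of_ne_zero hp.2.2) hp.2.1).trans hny), (Uni.WW_pos y).ne'⟩

/-- the class modulo the product of small primes -/
lemma exists_class {D : ℤ} (hD : Squarefree D) (hD4 : D % 4 = 1) (hD1 : D ≠ 1) {y : ℕ} (hy : 2 ≤ y)
    (hyD : D.natAbs ≤ y) : ∃ c : ℕ, (∀ q : ℕ, q.Prime → q ≤ y → ¬ q ∣ c) ∧
      (∀ q : ℕ, q.Prime → q ≤ y → c ≡ 1 [MOD q] → q = 2) ∧ jacobiSym c D.natAbs = -1 := by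
  have hW0 := Uni.WW_pos y
  have h2W : 2 ∣ Uni.WW y := (dvd_WW Nat.prime_two).2 hy
  have hDsq : Squarefree D.natAbs := Int.squarefree_natAbs.2 hD
  have hDW : D.natAbs ∣ Uni.WW y := sqf_dvd_WW hDsq hyD
  -- classes `≡ -1`
  have key : ∀ c : ℕ, ∀ q : ℕ, q.Prime → (q : ℤ) ∣ (c : ℤ) + 1 → ¬ q ∣ c ∧ (c ≡ 1 [MOD q] → q = 2) := by
    intro c q hq h
    constructor
    · intro hd
      have h1 : (q : ℤ) ∣ 1 := by
        have := dvd_sub h (Int.natCast_dvd_natCast.2 hd)
        simpa using this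
      have h2 : q ∣ 1 := by exact_mod_cast h1
      exact hq.one_lt.ne' (Nat.dvd_one.1 h2)
    · intro hd
      have h1 : (q : ℤ) ∣ (c : ℤ) - 1 := by
        have := (Nat.modEq_iff_dvd.1 hd.symm)
        exact_mod_cast this
      have h2 : (q : ℤ) ∣ ((2 : ℕ) : ℤ) := by
        have := dvd_sub h h1
        have e : (c : ℤ) + 1 - (c - 1) = ((2 : ℕ) : ℤ) := by push_cast; ring
        rwa [e] at this
      exact (Nat.prime_dvd_prime_iff_eq hq Nat.prime_two).1 (Int.natCast_dvd_natCast.1 h2)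
  have hDodd : Odd D.natAbs := by rw [Nat.odd_iff]; omega
  rcases le_or_gt 0 D with h | h
  · -- positive `D`
    have h4 : D.natAbs % 4 = 1 := by omega
    have hne1 : D.natAbs ≠ 1 := by omega
    -- a prime factor at least 5
    obtain ⟨q0, hq0, hq0D, hq05⟩ : ∃ q : ℕ, q.Prime ∧ q ∣ D.natAbs ∧ 5 ≤ q := by
      by_contra hcon
      push Not at hcon
      have h3 : ∀ q : ℕ, q.Prime → q ∣ D.natAbs → q = 3 := by
        intro q hq hqD
        have h5 := hcon q hq hqD
        have h2 : q ≠ 2 := by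
          rintro rfl
          rw [Nat.odd_iff] at hDodd
          omega
        have := hq.two_le
        interval_cases q
        · exact absurd rfl h2
        · rfl
        · exact absurd hq (by norm_num)
      have h5 : D.natAbs.primeFactors ⊆ {3} := by
        intro q hq
        rw [Nat.mem_primeFactors] at hq
        rw [mem_singleton]
        exact h3 q hq.1 hq.2.1
      have h6 : D.natAbs ∣ 3 := by
        rw [← Nat.prod_primeFactors_of_squarefree hDsq]
        have := prod_dvd_prod_of_subset _ _ (fun p : ℕ => p) h5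
        simpa using this
      rcases (Nat.dvd_prime Nat.prime_three).1 h6 with h7 | h7
      · exact hne1 h7
      · omega
    obtain ⟨u, hu0, hu1, hu⟩ := exists_u hq0 hq05
    obtain ⟨M, hM⟩ : q0 ∣ Uni.WW y := hq0D.trans hDW
    have hcop : Nat.Coprime q0 M := by
      have := WW_sqf y
      rw [hM] at this
      exact Nat.coprime_of_squarefree_mul this
    have hM0 : 0 < M := by
      rcases Nat.eq_zero_or_pos M with h0 | h0
      · rw [h0, mul_zero] at hM; omega
      · exact h0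
    obtain ⟨c, hc1, hc2⟩ := Nat.chineseRemainder hcop u (M - 1)
    have hcM : (M : ℤ) ∣ (c : ℤ) + 1 := by
      have h1 := Nat.modEq_iff_dvd.1 hc2.symm
      rw [Nat.cast_sub (by omega)] at h1
      have e : (c : ℤ) + 1 = ((c : ℤ) - ((M : ℤ) - ((1 : ℕ) : ℤ))) + M := by push_cast; ring
      rw [e]
      exact dvd_add h1 dvd_rfl
    have hsplit : ∀ q : ℕ, q.Prime → q ≤ y → q = q0 ∨ (q : ℤ) ∣ (c : ℤ) + 1 := by
      intro q hq hqy
      have h1 : q ∣ q0 * M := by rw [← hM]; exact (dvd_WW hq).2 hqy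
      rcases hq.dvd_mul.1 h1 with h2 | h2
      · left; exact (Nat.prime_dvd_prime_iff_eq hq hq0).1 h2
      · right; exact (Int.natCast_dvd_natCast.2 h2).trans hcM
    refine ⟨c, ?_, ?_, ?_⟩
    · intro q hq hqy hqc
      rcases hsplit q hq hqy with h1 | h1
      · rw [h1] at hqc
        exact hu0 ((hc1.dvd_iff dvd_rfl).1 hqc)
      · exact (key c q hq h1).1 hqc
    · intro q hq hqy hqc
      rcases hsplit q hq hqy with h1 | h1
      · rw [h1] at hqc
        exact absurd (hc1.symm.trans hqc) hu1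
      · exact (key c q hq h1).2 hqc
    · obtain ⟨D', hD'⟩ := hq0D
      have hD'0 : D' ≠ 0 := by
        rintro rfl
        rw [mul_zero] at hD'
        rw [hD'] at h4
        omega
      have hD'M : D' ∣ M := by
        have h1 : q0 * D' ∣ q0 * M := by rw [← hD', ← hM]; exact hDW
        exact Nat.dvd_of_mul_dvd_mul_left hq0.pos h1
      have e1 : jacobiSym c D' = jacobiSym (-1) D' := by
        apply jacobiSym.mod_left'
        have h1 : (D' : ℤ) ∣ (c : ℤ) + 1 := (Int.natCast_dvd_natCast.2 hD'M).trans hcM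
        apply (Int.emod_emod_of_dvd _ (dvd_refl _)).symm.trans
        rw [Int.emod_emod_of_dvd _ (dvd_refl _)]
        apply Int.ModEq.symm
        rw [Int.modEq_iff_dvd]
        simpa using h1
      have e2 : jacobiSym c q0 = jacobiSym u q0 := by
        apply jacobiSym.mod_left'
        have := (Int.natCast_modEq_iff.2 hc1)
        exact this
      have hprod : jacobiSym (-1) D.natAbs = 1 := by
        rw [jacobiSym.at_neg_one hDodd, ZMod.χ₄_nat_one_mod_four h4]
      rw [hD', jacobiSym.mul_right' _ hq0.ne_zero hD'0] at hprod ⊢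
      rw [e1, e2, hu]
      linarith
  · -- negative `D`
    have h4 : D.natAbs % 4 = 3 := by omega
    have hW1 : 1 ≤ Uni.WW y := hW0
    have hcast : ((Uni.WW y - 1 : ℕ) : ℤ) + 1 = (Uni.WW y : ℤ) := by
      rw [Nat.cast_sub hW1]; push_cast; ring
    have hall : ∀ q : ℕ, q.Prime → q ≤ y → (q : ℤ) ∣ ((Uni.WW y - 1 : ℕ) : ℤ) + 1 := by
      intro q hq hqy
      rw [hcast]
      exact Int.natCast_dvd_natCast.2 ((dvd_WW hq).2 hqy)
    refine ⟨Uni.WW y - 1, fun q hq hqy => (key _ q hq (hall q hq hqy)).1,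
      fun q hq hqy => (key _ q hq (hall q hq hqy)).2, ?_⟩
    have e1 : jacobiSym ((Uni.WW y - 1 : ℕ) : ℤ) D.natAbs = jacobiSym (-1) D.natAbs := by
      apply jacobiSym.mod_left'
      apply Int.ModEq.symm
      rw [Int.modEq_iff_dvd, sub_neg_eq_add, hcast]
      exact Int.natCast_dvd_natCast.2 hDW
    rw [e1, jacobiSym.at_neg_one hDodd, ZMod.χ₄_nat_three_mod_four h4]


/-- the modulus, the class and the shifts -/
theorem choice {D : ℤ} (hD : Squarefree D) (hD4 : D % 4 = 1) (hD1 : D ≠ 1) (K : ℕ) {y : ℕ} (hy : 2 ≤ y)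
    (hyD : D.natAbs ≤ y) (hyK : K ≤ y) :
    ∃ (W a0 H : ℕ) (t : Fin K → ℕ), 0 < W ∧ Squarefree W ∧ (∀ q : ℕ, q.Prime → q ≤ y → q ∣ W) ∧
      (∀ j, (a0 + t j).Coprime W) ∧ (∀ j, 2 ≤ t j ∧ t j ≤ H) ∧ Function.Injective t ∧ DT W.primeFactors t ∧
      (∀ n : ℕ, n ≡ a0 [MOD W] → W < n → ∀ h, 1 ≤ h → h ≤ H → (n + h).Prime → ∃ j, h = t j) ∧
      (∀ n : ℕ, n ≡ a0 [MOD W] → ∀ j, ∀ q : ℕ, q.Prime → q ∣ W → q ∣ n + t j - 1 → q = 2) ∧
      (∀ n : ℕ, n ≡ a0 [MOD W] → ∀ j, jacobiSym D (n + t j : ℕ) = -1) := by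
  classical
  obtain ⟨c, hc0, hc1, hcJ⟩ := exists_class hD hD4 hD1 hy hyD
  obtain ⟨W0, hW0d⟩ : ∃ W0, W0 = Uni.WW y := ⟨_, rfl⟩
  have hW0 : 0 < W0 := by rw [hW0d]; exact Uni.WW_pos y
  have h2W : 2 ∣ W0 := by rw [hW0d]; exact (dvd_WW Nat.prime_two).2 hy
  have hqW : ∀ q : ℕ, q.Prime → (q ∣ W0 ↔ q ≤ y) := by
    intro q hq; rw [hW0d]; exact dvd_WW hq
  have hDW : D.natAbs ∣ W0 := by rw [hW0d]; exact sqf_dvd_WW (Int.squarefree_natAbs.2 hD) hyD
  have hW0sq : Squarefree W0 := by rw [hW0d]; exact WW_sqf y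
  have hcodd : ¬ 2 ∣ c := hc0 2 Nat.prime_two hy
  set H := K * W0 with hH
  set l : ℕ → ℕ := fun h => Nat.nth Nat.Prime (y + H + h) with hl
  have hlp : ∀ h, (l h).Prime := fun h => Nat.prime_nth_prime _
  have hlbig : ∀ h, y + H + h + 2 ≤ l h := fun h => Nat.add_two_le_nth_prime _
  have hlinj : ∀ h h', l h = l h' → h = h' := by
    intro h h' he
    have := Nat.nth_injective Nat.infinite_setOfPred_prime he
    omega
  set Hs := (Icc 1 H).filter (fun h => Even h ∧ ¬ W0 ∣ h) with hHs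
  have h0Hs : 0 ∉ Hs := by
    rw [hHs, mem_filter, mem_Icc]; omega
  set s : ℕ → ℕ := fun i => if i = 0 then W0 else l i with hs
  set a : ℕ → ℕ := fun i => if i = 0 then c else i * (l i - 1) with ha
  have hs0 : s 0 = W0 := by simp [hs]
  have ha0' : a 0 = c := by simp [ha]
  have hspos : ∀ i, s i ≠ 0 := by
    intro i
    simp only [hs]
    split_ifs
    · omega
    · exact (hlp i).ne_zero
  have hsc : ∀ i, i ≠ 0 → s i = l i := fun i hi => by simp [hs, hi]
  have hac : ∀ i, i ≠ 0 → a i = i * (l i - 1) := fun i hi => by simp [ha, hi]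
  have hW0l : ∀ i, Nat.Coprime W0 (l i) := by
    intro i
    rw [Nat.coprime_comm, Nat.Prime.coprime_iff_not_dvd (hlp i), hqW _ (hlp i)]
    have := hlbig i
    omega
  have hll : ∀ i j, i ≠ j → Nat.Coprime (l i) (l j) := by
    intro i j hij
    rw [Nat.coprime_primes (hlp i) (hlp j)]
    exact fun h => hij (hlinj i j h)
  have hpair : ∀ i j, i ≠ j → Nat.Coprime (s i) (s j) := by
    intro i j hij
    by_cases hi : i = 0
    · rw [hi, hs0, hsc j (by omega)]; exact hW0l j
    · by_cases hj : j = 0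
      · rw [hj, hs0, hsc i hi]; exact (hW0l i).symm
      · rw [hsc i hi, hsc j hj]; exact hll i j hij
  obtain ⟨a0, ha0⟩ := Nat.chineseRemainderOfFinset a s (insert 0 Hs) (fun i _ => hspos i)
    (fun i _ j _ hij => hpair i j hij)
  set W := ∏ i ∈ insert 0 Hs, s i with hW
  have hWeq : W = W0 * ∏ i ∈ Hs, s i := by rw [hW, prod_insert h0Hs, hs0]
  have hWpos : 0 < W := by
    rw [hW]
    exact prod_pos fun i _ => Nat.pos_of_ne_zero (hspos i)
  have hsW : ∀ i ∈ insert 0 Hs, s i ∣ W := fun i hi => dvd_prod_of_mem _ hi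
  have hW0W : W0 ∣ W := by
    have := hsW 0 (mem_insert_self _ _)
    rwa [hs0] at this
  have hlW : ∀ h ∈ Hs, l h ∣ W := by
    intro h hh
    have := hsW h (mem_insert_of_mem hh)
    rwa [hsc h (fun h0 => h0Hs (h0 ▸ hh))] at this
  have hWfac : ∀ q : ℕ, q.Prime → q ∣ W → q ≤ y ∨ ∃ h ∈ Hs, q = l h := by
    intro q hq hqd
    rw [hWeq] at hqd
    rcases hq.dvd_mul.1 hqd with h1 | h1
    · left; exact (hqW q hq).1 h1
    · right
      rw [Prime.dvd_finsetProd_iff hq.prime] at h1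
      obtain ⟨h, hh, hqh⟩ := h1
      have hh0 : h ≠ 0 := fun h0 => h0Hs (h0 ▸ hh)
      rw [hsc h hh0] at hqh
      exact ⟨h, hh, (Nat.prime_dvd_prime_iff_eq hq (hlp h)).1 hqh⟩
  have hna : ∀ n : ℕ, n ≡ a0 [MOD W] → ∀ i ∈ insert 0 Hs, n ≡ a i [MOD s i] := by
    intro n hn i hi
    exact (hn.of_dvd (hsW i hi)).trans (ha0 i hi)
  have hnc : ∀ n : ℕ, n ≡ a0 [MOD W] → n ≡ c [MOD W0] := by
    intro n hn
    have := hna n hn 0 (mem_insert_self _ _)
    rwa [ha0', hs0] at this
  have hnl : ∀ n : ℕ, n ≡ a0 [MOD W] → ∀ h ∈ Hs, l h ∣ n + h := by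
    intro n hn h hh
    have hh0 : h ≠ 0 := fun h0 => h0Hs (h0 ▸ hh)
    have h1 := hna n hn h (mem_insert_of_mem hh)
    rw [hac h hh0, hsc h hh0] at h1
    have h2 := h1.add_right h
    have e : h * (l h - 1) + h = h * l h := by
      have := (hlp h).one_lt.le
      obtain ⟨w, hw⟩ := Nat.exists_eq_add_of_le this
      rw [hw, Nat.add_sub_cancel_left]
      ring
    rw [e] at h2
    exact (h2.dvd_iff dvd_rfl).2 (Dvd.intro_left _ rfl)
  obtain ⟨t, ht⟩ : ∃ t : Fin K → ℕ, ∀ j, t j = W0 * ((j : ℕ) + 1) := ⟨_, fun _ => rfl⟩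
  have htW : ∀ j, W0 ∣ t j := fun j => by rw [ht]; exact Dvd.intro _ rfl
  have htH : ∀ j, t j ≤ H := by
    intro j
    rw [ht, hH, mul_comm K]
    exact Nat.mul_le_mul_left _ j.2
  have ht2 : ∀ j, 2 ≤ t j := by
    intro j
    have h1 : W0 ≤ t j := by
      rw [ht]; exact Nat.le_mul_of_pos_right _ (by omega)
    exact (Nat.le_of_dvd hW0 h2W).trans h1
  have htinj : Function.Injective t := by
    intro i j hij
    rw [ht, ht] at hij
    have := Nat.eq_of_mul_eq_mul_left hW0 hij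
    exact Fin.ext (by omega)
  refine ⟨W, a0, H, t, hWpos, ?_, fun q hq hqy => ((hqW q hq).2 hqy).trans hW0W, ?_, fun j => ⟨ht2 j, htH j⟩, htinj, ?_, ?_, ?_, ?_⟩
  · -- squarefree
    apply Finset.squarefree_prod_of_pairwise_isCoprime
    · intro i _ j _ hij
      exact Nat.coprime_iff_isRelPrime.1 (hpair i j hij)
    · intro i _
      by_cases hi : i = 0
      · rw [hi, hs0]; exact hW0sq
      · rw [hsc i hi]; exact (hlp i).prime.squarefree
  · -- coprime
    intro j
    by_contra hcop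
    obtain ⟨q, hq, hqt, hqW'⟩ := Nat.Prime.not_coprime_iff_dvd.1 hcop
    rcases hWfac q hq hqW' with h1 | ⟨h, hh, h1⟩
    · have h2 : a0 ≡ c [MOD W0] := hnc a0 (Nat.ModEq.refl _)
      have h3 : q ∣ a0 := by
        have h4 : q ∣ t j := ((hqW q hq).2 h1).trans (htW j)
        exact (Nat.dvd_add_left h4).1 hqt
      have h5 := h2.of_dvd ((hqW q hq).2 h1)
      exact hc0 q hq h1 ((h5.dvd_iff dvd_rfl).1 h3)
    · have h2 := hnl a0 (Nat.ModEq.refl _) h hh
      rw [← h1] at h2
      have h3 : (q : ℤ) ∣ (t j : ℤ) - h := by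
        have h4 := dvd_sub (Int.natCast_dvd_natCast.2 hqt) (Int.natCast_dvd_natCast.2 h2)
        push_cast at h4
        have e : (a0 : ℤ) + t j - (a0 + h) = t j - h := by ring
        rwa [e] at h4
      rw [hHs, mem_filter, mem_Icc] at hh
      have h5 : (t j : ℤ) - h = 0 := by
        apply Int.eq_zero_of_abs_lt_dvd h3
        rw [abs_lt]
        have := hlbig h
        have := htH j
        have := hh.1.2
        constructor <;> omega
      have h6 : t j = h := by omega
      exact hh.2.2 (h6 ▸ htW j)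
  · -- differences
    intro i j hij p hp hpW hpd
    have hpW' : ¬ p ∣ W := fun h => hpW (Nat.mem_primeFactors.2 ⟨hp, h, hWpos.ne'⟩)
    have hpy : y < p := by
      by_contra hle
      exact hpW' (((hqW p hp).2 (by omega)).trans hW0W)
    rw [ht, ht] at hpd
    have e : ((W0 * ((i : ℕ) + 1) : ℕ) : ℤ) - ((W0 * ((j : ℕ) + 1) : ℕ) : ℤ) = (W0 : ℤ) * ((i : ℕ) - (j : ℕ)) := by
      push_cast; ring
    rw [e] at hpd
    rcases (Nat.prime_iff_prime_int.1 hp).dvd_or_dvd hpd with h1 | h1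
    · exact hpW' ((Int.natCast_dvd_natCast.1 h1).trans hW0W)
    · have h2 : ((i : ℕ) : ℤ) - (j : ℕ) = 0 := by
        apply Int.eq_zero_of_abs_lt_dvd h1
        rw [abs_lt]
        have := i.2
        have := j.2
        constructor <;> omega
      exact hij (Fin.ext (by omega))
  · -- primes in the interval
    intro n hn hWn h h1 h2 hp
    by_cases hWh : W0 ∣ h
    · obtain ⟨u, hu⟩ := hWh
      have hu1 : 1 ≤ u := by
        rcases Nat.eq_zero_or_pos u with h0 | h0
        · rw [h0, mul_zero] at hu; omega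
        · exact h0
      have huK : u ≤ K := by
        rw [hu, hH, mul_comm K] at h2
        exact Nat.le_of_mul_le_mul_left h2 hW0
      refine ⟨⟨u - 1, by omega⟩, ?_⟩
      rw [ht, hu]
      congr 1
      show u = u - 1 + 1
      omega
    · exfalso
      have h2Wn : n ≡ c [MOD 2] := (hnc n hn).of_dvd h2W
      have hnodd : ¬ 2 ∣ n := fun h3 => hcodd ((h2Wn.dvd_iff dvd_rfl).1 h3)
      by_cases he : Even h
      · have hh : h ∈ Hs := by
          rw [hHs, mem_filter, mem_Icc]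
          exact ⟨⟨h1, h2⟩, he, hWh⟩
        have h3 := hnl n hn h hh
        have h4 := (Nat.prime_dvd_prime_iff_eq (hlp h) hp).1 h3
        have h5 := Nat.le_of_dvd hWpos (hlW h hh)
        omega
      · have h3 : 2 ∣ n + h := by
          rw [Nat.not_even_iff_odd] at he
          obtain ⟨v, hv⟩ := he
          omega
        have h4 := (Nat.prime_dvd_prime_iff_eq Nat.prime_two hp).1 h3
        omega
  · -- prime factors of `p - 1`
    intro n hn j q hq hqW' hqd
    have hn1 : 1 ≤ n + t j := by have := ht2 j; omega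
    rcases hWfac q hq hqW' with h1 | ⟨h, hh, h1⟩
    · apply hc1 q hq h1
      have h2 := (hnc n hn).of_dvd ((hqW q hq).2 h1)
      have h3 : n + t j ≡ 1 [MOD q] := ((Nat.modEq_iff_dvd' hn1).2 hqd).symm
      have h4 : n + t j ≡ n [MOD q] := by
        have : q ∣ t j := ((hqW q hq).2 h1).trans (htW j)
        have h5 : t j ≡ 0 [MOD q] := (Nat.modEq_zero_iff_dvd).2 this
        exact Nat.ModEq.add_left n h5
      exact h2.symm.trans (h4.symm.trans h3)
    · exfalso
      have h2 := hnl n hn h hh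
      rw [← h1] at h2
      have h3 : (q : ℤ) ∣ (t j : ℤ) - 1 - h := by
        have h4 := dvd_sub (Int.natCast_dvd_natCast.2 hqd) (Int.natCast_dvd_natCast.2 h2)
        rw [Nat.cast_sub hn1] at h4
        push_cast at h4
        have e : (n : ℤ) + t j - 1 - (n + h) = t j - 1 - h := by ring
        rwa [e] at h4
      rw [hHs, mem_filter, mem_Icc] at hh
      have h5 : (t j : ℤ) - 1 - h = 0 := by
        apply Int.eq_zero_of_abs_lt_dvd h3
        rw [abs_lt]
        have := hlbig h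
        have := htH j
        have := hh.1.2
        constructor <;> omega
      obtain ⟨v, hv⟩ := hh.2.1
      obtain ⟨w, hw⟩ := h2W.trans (htW j)
      omega
  · -- the Jacobi symbol
    intro n hn j
    have h2Wn : n ≡ c [MOD 2] := (hnc n hn).of_dvd h2W
    have hnodd : ¬ 2 ∣ n := fun h3 => hcodd ((h2Wn.dvd_iff dvd_rfl).1 h3)
    have hodd : Odd (n + t j) := by
      rw [Nat.odd_iff]
      obtain ⟨w, hw⟩ := h2W.trans (htW j)
      omega
    rw [jacobi_flip hD4 hodd, ← hcJ]
    apply jacobiSym.mod_left'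
    have h1 : n + t j ≡ c [MOD D.natAbs] := by
      have h2 : n ≡ c [MOD D.natAbs] := (hnc n hn).of_dvd hDW
      have h3 : t j ≡ 0 [MOD D.natAbs] := (Nat.modEq_zero_iff_dvd).2 (hDW.trans (htW j))
      exact (Nat.ModEq.add h2 h3)
    exact Int.natCast_modEq_iff.2 h1

end Pool.Agent.TH891.PR
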