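import Pool.Agent.TH891.PR.P1
import Pool.Agent.TH891.PR.P2
import Pool.Agent.H387R2.MB9

set_option autoImplicit false

/-! # Moduli `W q` and prime factors of `p - 1` -/

namespace Pool.Agent.TH891.PR

open Finset Filter Topology
open Pool.Agent.H378R2 Pool.Agent.H387R2.MB

lemma cs_fix (z W : ℕ) (hW : 0 < W) (hz : ∀ q : ℕ, q.Prime → q ≤ z → q ∣ W) : ∀ᶠ X : ℝ in atTop,
    CS X z W W.primeFactors ∧ ∀ q : ℕ, q.Prime → ¬ q ∣ W → (q : ℝ) ≤ Real.log X →
      CS X z (W * q) (insert q W.primeFactors) := by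
  obtain ⟨A1, hA1⟩ : ∃ A : ℝ, A = ∑ p ∈ W.primeFactors, Real.log p / p := ⟨_, rfl⟩
  obtain ⟨A2, hA2⟩ : ∃ A : ℝ, A = ∑ p ∈ W.primeFactors, (1 : ℝ) / p := ⟨_, rfl⟩
  have t1 : Tendsto (fun X : ℝ => LL X ^ (1 / 4 : ℝ)) atTop atTop :=
    (tendsto_rpow_atTop (by norm_num : (0:ℝ) < 1 / 4)).comp LL_tendsto
  have t2 : Tendsto (fun X : ℝ => Real.log (LL X)) atTop atTop := Real.tendsto_log_atTop.comp LL_tendsto
  filter_upwards [t1.eventually_ge_atTop (2 * (A1 + 1)), t2.eventually_ge_atTop (64 * (A2 + 1)),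
    Real.tendsto_log_atTop.eventually_ge_atTop (W : ℝ), Real.tendsto_log_atTop.eventually_ge_atTop 1] with X h1 h2 h3 h4
  have hpr : ∀ p ∈ W.primeFactors, p.Prime := fun p hp => Nat.prime_of_mem_primeFactors hp
  have hsm : ∀ p : ℕ, p.Prime → p ≤ z → p ∈ W.primeFactors := fun p hp hpz =>
    Nat.mem_primeFactors.2 ⟨hp, hz p hp hpz, hW.ne'⟩
  have hl0 : 0 ≤ Real.log X := by linarith
  have hlsq : Real.log X ^ 2 ≤ Real.log X ^ 3 := pow_le_pow_right₀ h4 (by norm_num)
  refine ⟨⟨⟨hpr, hsm, ?_, ?_⟩, hW, ?_, ?_⟩, ?_⟩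
  · rw [← hA1]; linarith
  · rw [← hA2]; linarith
  · nlinarith
  · intro p hp hpE hpW
    exact hpE (Nat.mem_primeFactors.2 ⟨hp, hpW, hW.ne'⟩)
  · intro q hq hqW hql
    have hqE : q ∉ W.primeFactors := fun h => hqW (Nat.dvd_of_mem_primeFactors h)
    have hq0 : (0:ℝ) < q := by exact_mod_cast hq.pos
    refine ⟨⟨?_, ?_, ?_, ?_⟩, Nat.mul_pos hW hq.pos, ?_, ?_⟩
    · intro p hp
      rcases mem_insert.1 hp with h | h
      · rw [h]; exact hq
      · exact hpr p h
    · intro p hp hpz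
      exact mem_insert_of_mem (hsm p hp hpz)
    · rw [sum_insert hqE, ← hA1]
      have := log_div_le_one hq
      linarith
    · rw [sum_insert hqE, ← hA2]
      have : (1:ℝ) / q ≤ 1 := by
        rw [div_le_one hq0]; exact_mod_cast hq.one_lt.le
      linarith
    · push_cast
      nlinarith [mul_le_mul h3 hql hq0.le hl0]
    · intro p hp hpE hpW
      rw [mem_insert, not_or] at hpE
      rcases hp.dvd_mul.1 hpW with h | h
      · exact hpE.2 (Nat.mem_primeFactors.2 ⟨hp, h, hW.ne'⟩)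
      · exact hpE.1 ((Nat.prime_dvd_prime_iff_eq hp hq).1 h)

lemma QQ_insert (K : ℕ) {X : ℝ} (hL : 0 < LL X) {W q : ℕ} (hW : 0 < W) (hq : q.Prime) {E : Finset ℕ}
    (hE : ∀ p ∈ E, p.Prime) (hqE : q ∉ E) :
    QQ K X (W * q) (insert q E) ≤ 2 ^ K / q * QQ K X W E := by
  have hBE : 0 < BE E := BE_pos hE
  have hM := MPhi_nonneg X
  have hq0 : (0:ℝ) < q := by exact_mod_cast hq.pos
  have hW0 : (0:ℝ) < W := by exact_mod_cast hW
  have hq2 : (2:ℝ) ≤ q := by exact_mod_cast hq.two_le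
  have h1 : 1 / 2 ≤ 1 - 1 / (q : ℝ) := by
    have : 1 / (q : ℝ) ≤ 1 / 2 := one_div_le_one_div_of_le (by norm_num) hq2
    linarith
  unfold QQ
  rw [BE_insert hqE]
  push_cast
  have h2 : 1 / (LL X * ((1 - 1 / (q:ℝ)) * BE E)) ^ K ≤ 2 ^ K * (1 / (LL X * BE E) ^ K) := by
    rw [mul_one_div, div_le_div_iff₀ (by positivity) (by positivity), one_mul, ← mul_pow]
    apply pow_le_pow_left₀ (by positivity)
    have h3 : 0 < LL X * BE E := by positivity
    nlinarith
  calc MPhi X * (1 / (W * q)) * (1 / (LL X * ((1 - 1 / (q:ℝ)) * BE E)) ^ K) ≤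
      MPhi X * (1 / (W * q)) * (2 ^ K * (1 / (LL X * BE E) ^ K)) :=
        mul_le_mul_of_nonneg_left h2 (by positivity)
    _ = _ := by field_simp

lemma QQ_nonneg (K : ℕ) {X : ℝ} (hL : 0 < LL X) {W : ℕ} {E : Finset ℕ} (hE : ∀ p ∈ E, p.Prime) : 0 ≤ QQ K X W E := by
  have hBE : 0 < BE E := BE_pos hE
  have hM := MPhi_nonneg X
  unfold QQ
  positivity

/-- the condition that all `n + t i` have no small prime factor -/
def RA {K : ℕ} (δ X : ℝ) (t : Fin K → ℕ) (n : ℕ) : Prop := ∀ i, Rg δ X (n + t i)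

open Classical in
/-- the condition `q ∣ n + t j - 1` as a residue class modulo `W q` -/
lemma nu_le_class {K : ℕ} {X δ : ℝ} {W a0 q : ℕ} (hW : 0 < W) (hq : q.Prime) (hqW : ¬ q ∣ W) (t : Fin K → ℕ) (v : ℕ) :
    ∃ a1 : ℕ, ∀ n : ℕ, nu X W a0 n * (if RA δ X t n ∧ q ∣ n + v then 1 else 0) ≤
      nu X (W * q) a1 n * (if RA δ X t n then 1 else 0) := by
  have hcop : Nat.Coprime W q := (Nat.coprime_comm.1 ((Nat.Prime.coprime_iff_not_dvd hq).2 hqW))
  obtain ⟨a1, h1, h2⟩ := Nat.chineseRemainder hcop a0 (v * (q - 1))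
  refine ⟨a1, fun n => ?_⟩
  by_cases hc : n ≡ a0 [MOD W] ∧ q ∣ n + v
  · have h3 : n ≡ a1 [MOD q] := by
      refine Nat.ModEq.trans ?_ h2.symm
      have e : v * (q - 1) + v = v * q := by
        have := hq.one_lt.le
        obtain ⟨w, hw⟩ := Nat.exists_eq_add_of_le this
        rw [hw, Nat.add_sub_cancel_left]
        ring
      have h4 : n + v ≡ v * (q - 1) + v [MOD q] := by
        rw [e]
        exact ((Nat.modEq_zero_iff_dvd).2 hc.2).trans ((Nat.modEq_zero_iff_dvd).2 (Dvd.intro_left _ rfl)).symm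
      exact Nat.ModEq.add_right_cancel' v h4
    have h4 : n ≡ a1 [MOD W] := hc.1.trans h1.symm
    have h5 : n ≡ a1 [MOD W * q] := (Nat.modEq_and_modEq_iff_modEq_mul hcop).1 ⟨h4, h3⟩
    unfold nu
    rw [if_pos hc.1, if_pos h5]
    apply mul_le_mul_of_nonneg_left _ (Phi_nonneg _)
    split_ifs with ha hb
    · exact le_rfl
    · exact absurd ha.1 hb
    · norm_num
    · exact le_rfl
  · have h3 : nu X W a0 n * (if RA δ X t n ∧ q ∣ n + v then (1:ℝ) else 0) = 0 := by
      by_cases hn : n ≡ a0 [MOD W]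
      · rw [if_neg (fun h => hc ⟨hn, h.2⟩), mul_zero]
      · unfold nu
        rw [if_neg hn, zero_mul]
    rw [h3]
    apply mul_nonneg (nu_nonneg _ _ _ _)
    split_ifs <;> norm_num

/-- the part of `1/q` and the number of prime factors, uniformly small -/
lemma omega_small {ε : ℝ} (hε : 0 < ε) : ∀ᶠ X : ℝ in atTop, ∀ u : ℕ, u ≠ 0 → (u : ℝ) ≤ 4 * X →
    (#(u.primeFactors.filter (fun q => ⌊Real.log X⌋₊ < q)) : ℝ) / ⌊Real.log X⌋₊ + #u.primeFactors / Real.log X ≤ ε := by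
  have tl := Real.tendsto_log_atTop
  have tf : Tendsto (fun X : ℝ => Real.log (⌊Real.log X⌋₊ : ℝ)) atTop atTop :=
    Real.tendsto_log_atTop.comp (tendsto_natCast_atTop_atTop.comp (tendsto_nat_floor_atTop.comp tl))
  have tsq : Tendsto (fun X : ℝ => Real.sqrt (Real.log X)) atTop atTop := Real.tendsto_sqrt_atTop.comp tl
  have tf2 : Tendsto (fun X : ℝ => Real.log (⌊Real.sqrt (Real.log X)⌋₊ : ℝ)) atTop atTop :=
    Real.tendsto_log_atTop.comp (tendsto_natCast_atTop_atTop.comp (tendsto_nat_floor_atTop.comp tsq))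
  filter_upwards [tl.eventually_ge_atTop 16, tf.eventually_ge_atTop (12 / ε), tf2.eventually_ge_atTop (12 / ε),
    tsq.eventually_ge_atTop (12 / ε), eventually_ge_atTop 4] with X h1 h2 h3 h4 h5
  intro u hu0 hu
  obtain ⟨l, hl⟩ : ∃ l : ℝ, l = Real.log X := ⟨_, rfl⟩
  rw [← hl] at h1 h2 h3 h4 ⊢
  have hl4 : Real.log (4 * X) ≤ 2 * l := by
    rw [Real.log_mul (by norm_num) (by linarith), hl]
    have := Real.log_le_log (by norm_num) h5
    linarith
  have hlu : Real.log u ≤ 2 * l := by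
    refine (Real.log_le_log ?_ hu).trans hl4
    exact_mod_cast Nat.pos_of_ne_zero hu0
  have hT2 : 2 ≤ ⌊l⌋₊ := Nat.le_floor (by push_cast; linarith)
  have hs4 : 4 ≤ Real.sqrt l := by
    rw [show (4:ℝ) = Real.sqrt (4 ^ 2) by rw [Real.sqrt_sq (by norm_num)]]
    exact Real.sqrt_le_sqrt (by linarith)
  have hS2 : 2 ≤ ⌊Real.sqrt l⌋₊ := Nat.le_floor (by push_cast; linarith)
  have hTl : l / 2 ≤ (⌊l⌋₊ : ℝ) := by
    have : l < ⌊l⌋₊ + 1 := Nat.lt_floor_add_one l
    linarith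
  have hl0 : 0 < l := by linarith
  have hSle : (⌊Real.sqrt l⌋₊ : ℝ) ≤ Real.sqrt l := Nat.floor_le (Real.sqrt_nonneg _)
  have e0 : 0 < 12 / ε := by positivity
  have a1 : (#(u.primeFactors.filter (fun q => ⌊l⌋₊ < q)) : ℝ) / ⌊l⌋₊ ≤ ε / 3 := by
    have k1 := card_big hT2 hu0 hlu
    have hlog : 0 < Real.log (⌊l⌋₊ : ℝ) := by linarith
    rw [le_div_iff₀ hlog] at k1
    have k2 : (#(u.primeFactors.filter (fun q => ⌊l⌋₊ < q)) : ℝ) * (12 / ε) ≤ 2 * l := by
      refine le_trans ?_ k1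
      exact mul_le_mul_of_nonneg_left h2 (Nat.cast_nonneg _)
    rw [div_le_iff₀ (by linarith)]
    have k3 : (#(u.primeFactors.filter (fun q => ⌊l⌋₊ < q)) : ℝ) = (#(u.primeFactors.filter (fun q => ⌊l⌋₊ < q)) : ℝ) * (12 / ε) * (ε / 12) := by
      field_simp
    rw [k3]
    calc _ ≤ 2 * l * (ε / 12) := mul_le_mul_of_nonneg_right k2 (by positivity)
      _ ≤ ε / 3 * (l / 2) := by nlinarith
      _ ≤ ε / 3 * ⌊l⌋₊ := by gcongr
  have a2 : (#u.primeFactors : ℝ) ≤ ⌊Real.sqrt l⌋₊ + (#(u.primeFactors.filter (fun q => ⌊Real.sqrt l⌋₊ < q)) : ℝ) := by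
    have k1 : u.primeFactors ⊆ Icc 1 ⌊Real.sqrt l⌋₊ ∪ u.primeFactors.filter (fun q => ⌊Real.sqrt l⌋₊ < q) := by
      intro q hq
      rw [mem_union, mem_Icc, mem_filter]
      by_cases h : ⌊Real.sqrt l⌋₊ < q
      · exact Or.inr ⟨hq, h⟩
      · exact Or.inl ⟨(Nat.prime_of_mem_primeFactors hq).one_lt.le, by omega⟩
    have k2 := (card_le_card k1).trans (card_union_le _ _)
    rw [Nat.card_Icc, Nat.add_sub_cancel] at k2
    exact_mod_cast k2
  have a3 : (#(u.primeFactors.filter (fun q => ⌊Real.sqrt l⌋₊ < q)) : ℝ) ≤ ε / 6 * l := by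
    have k1 := card_big hS2 hu0 hlu
    have hlog : 0 < Real.log (⌊Real.sqrt l⌋₊ : ℝ) := by linarith
    rw [le_div_iff₀ hlog] at k1
    have k2 : (#(u.primeFactors.filter (fun q => ⌊Real.sqrt l⌋₊ < q)) : ℝ) * (12 / ε) ≤ 2 * l := by
      refine le_trans ?_ k1
      exact mul_le_mul_of_nonneg_left h3 (Nat.cast_nonneg _)
    have k3 : (#(u.primeFactors.filter (fun q => ⌊Real.sqrt l⌋₊ < q)) : ℝ) =
        (#(u.primeFactors.filter (fun q => ⌊Real.sqrt l⌋₊ < q)) : ℝ) * (12 / ε) * (ε / 12) := by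
      field_simp
    rw [k3]
    calc _ ≤ 2 * l * (ε / 12) := mul_le_mul_of_nonneg_right k2 (by positivity)
      _ = _ := by ring
  have a4 : Real.sqrt l ≤ ε / 12 * l := by
    have k1 : Real.sqrt l * Real.sqrt l = l := Real.mul_self_sqrt hl0.le
    have k2 : 12 / ε * (ε / 12) = 1 := by field_simp
    have k3 : 0 ≤ Real.sqrt l := Real.sqrt_nonneg _
    calc Real.sqrt l = Real.sqrt l * (12 / ε * (ε / 12)) := by rw [k2, mul_one]
      _ ≤ Real.sqrt l * (Real.sqrt l * (ε / 12)) := by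
          apply mul_le_mul_of_nonneg_left _ k3
          exact mul_le_mul_of_nonneg_right h4 (by positivity)
      _ = Real.sqrt l * Real.sqrt l * (ε / 12) := by ring
      _ = _ := by rw [k1]; ring
  have a5 : (#u.primeFactors : ℝ) / l ≤ ε / 3 := by
    rw [div_le_iff₀ hl0]
    nlinarith
  linarith

/-- the sum of `1/q²` over the primes not dividing `W` -/
lemma sum_q2 {W y T : ℕ} (hy : 1 ≤ y) (hW : ∀ q : ℕ, q.Prime → q ≤ y → q ∣ W) :
    ∑ q ∈ ((T + 1).primesBelow).filter (fun q => ¬ q ∣ W), (1 : ℝ) / (q : ℝ) ^ 2 ≤ 1 / y := by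
  have hsub : ((T + 1).primesBelow).filter (fun q => ¬ q ∣ W) ⊆ Ioc y (max y T) := by
    intro q hq
    rw [mem_filter, Nat.mem_primesBelow] at hq
    rw [mem_Ioc]
    refine ⟨?_, (by omega : q ≤ T).trans (le_max_right _ _)⟩
    by_contra hle
    exact hq.2 (hW q hq.1.2 (by omega))
  have h1 := sum_Ioc_inv_sq_le_sub (α := ℝ) (by omega : y ≠ 0) (le_max_left y T)
  calc _ ≤ ∑ q ∈ Ioc y (max y T), (1 : ℝ) / (q : ℝ) ^ 2 :=
        sum_le_sum_of_subset_of_nonneg hsub fun _ _ _ => by positivity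
    _ = ∑ i ∈ Ioc y (max y T), (((i : ℝ)) ^ 2)⁻¹ := sum_congr rfl fun _ _ => one_div _
    _ ≤ _ := h1
    _ ≤ _ := by
        rw [one_div]
        have : (0:ℝ) ≤ ((max y T : ℕ) : ℝ)⁻¹ := by positivity
        linarith

/-- the local weight of `u = p - 1` -/
lemma local_weight {W u T : ℕ} (hT' : 0 < T) {L : ℝ} (hL : 0 < L) :
    ∑ q ∈ u.primeFactors.filter (fun q => ¬ q ∣ W), ((1 : ℝ) / q + 1 / L) ≤
      ∑ q ∈ ((T + 1).primesBelow).filter (fun q => ¬ q ∣ W), (1 : ℝ) / q * (if q ∣ u then 1 else 0) +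
      ((#(u.primeFactors.filter (fun q => T < q)) : ℝ) / T + #u.primeFactors / L) := by
  rw [sum_add_distrib]
  have h2 : ∑ q ∈ u.primeFactors.filter (fun q => ¬ q ∣ W), 1 / L ≤ #u.primeFactors / L := by
    rw [sum_const, nsmul_eq_mul, mul_one_div]
    apply div_le_div_of_nonneg_right _ hL.le
    exact_mod_cast card_le_card (filter_subset _ _)
  have h1 : ∑ q ∈ u.primeFactors.filter (fun q => ¬ q ∣ W), (1 : ℝ) / q ≤
      ∑ q ∈ ((T + 1).primesBelow).filter (fun q => ¬ q ∣ W), (1 : ℝ) / q * (if q ∣ u then 1 else 0) +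
      (#(u.primeFactors.filter (fun q => T < q)) : ℝ) / T := by
    have e : u.primeFactors.filter (fun q => ¬ q ∣ W) =
        (u.primeFactors.filter (fun q => ¬ q ∣ W)).filter (fun q => q ≤ T) ∪
        (u.primeFactors.filter (fun q => ¬ q ∣ W)).filter (fun q => ¬ q ≤ T) := (filter_union_filter_not_eq _ _).symm
    rw [e, sum_union (disjoint_filter_filter_not _ _ _)]
    apply add_le_add
    · calc _ = ∑ q ∈ (u.primeFactors.filter (fun q => ¬ q ∣ W)).filter (fun q => q ≤ T), (1 : ℝ) / q * (if q ∣ u then 1 else 0) := by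
            apply sum_congr rfl
            intro q hq
            rw [mem_filter, mem_filter] at hq
            rw [if_pos (Nat.dvd_of_mem_primeFactors hq.1.1), mul_one]
        _ ≤ _ := by
            apply sum_le_sum_of_subset_of_nonneg
            · intro q hq
              rw [mem_filter, mem_filter] at hq
              rw [mem_filter, Nat.mem_primesBelow]
              exact ⟨⟨by omega, Nat.prime_of_mem_primeFactors hq.1.1⟩, hq.1.2⟩
            · intro q _ _
              split_ifs <;> positivity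
    · rcases Nat.eq_zero_or_pos T with hT | hT
      · omega
      · have hT0 : (0:ℝ) < T := by exact_mod_cast hT
        calc _ ≤ ∑ _q ∈ (u.primeFactors.filter (fun q => ¬ q ∣ W)).filter (fun q => ¬ q ≤ T), (1:ℝ) / T := by
              apply sum_le_sum
              intro q hq
              rw [mem_filter] at hq
              apply one_div_le_one_div_of_le hT0
              exact_mod_cast (by omega : T ≤ q)
          _ = (#((u.primeFactors.filter (fun q => ¬ q ∣ W)).filter (fun q => ¬ q ≤ T)) : ℝ) / T := by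
              rw [sum_const, nsmul_eq_mul, mul_one_div]
          _ ≤ _ := by
              apply div_le_div_of_nonneg_right _ hT0.le
              have : (u.primeFactors.filter (fun q => ¬ q ∣ W)).filter (fun q => ¬ q ≤ T) ⊆ u.primeFactors.filter (fun q => T < q) := by
                intro q hq
                rw [mem_filter, mem_filter] at hq
                rw [mem_filter]
                exact ⟨hq.1.1, by omega⟩
              exact_mod_cast card_le_card this
  linarith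

end Pool.Agent.TH891.PR
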