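import Pool.Agent.TH891.PR.P4

set_option autoImplicit false

/-! # One scale -/

namespace Pool.Agent.TH891.PR

open Finset Filter Topology
open Pool.Agent.H378R2 Pool.Agent.H387R2.MB
open Pool.Agent.H386R2.Artin (PP Good)

/-- at least `k + 1` primes in `(n, n + H]`, none of them bad for a multiplier in `M` -/
def Gn (k H : ℕ) (B : ℤ) (R : ℕ) (M : Finset ℕ) (n : ℕ) : Prop :=
  k + 1 ≤ #{p ∈ Ioc n (n + H) | p.Prime} ∧ ∀ p ∈ Ioc n (n + H), p.Prime → ∀ m ∈ M, ¬ BadM B R p m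

open Classical in
/-- the lower bound for one scale -/
theorem lower_scale {D : ℤ} {K : ℕ} {δ c0 X : ℝ} {y W a0 H k R J : ℕ} {t : Fin K → ℕ} (hc : Cfg D y W a0 H t) (B : ℤ)
    (hQ : 0 ≤ QQ K X W W.primeFactors) (hc0 : 0 < c0)
    (hpos : c0 * QQ K X W W.primeFactors ≤ ∑ n ∈ Icc 1 ⌊3 * X⌋₊, nu X W a0 n *
        (if (k + 1 ≤ (univ.filter (fun j => (n + t j).Prime)).card) ∧ RA δ X t n then 1 else 0))
    (hX2 : 2 ≤ X) (hWX : (W : ℝ) ≤ X) (M : Finset ℕ) (hMJ : #M ≤ J)
    (hM : ∀ m ∈ M, Sb δ X W a0 t B R m ≤ c0 / (2 * (J + 1)) * QQ K X W W.primeFactors) :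
    c0 / 2 * QQ K X W W.primeFactors ≤ (#((Ioc ⌊X⌋₊ ⌊3 * X⌋₊).filter (fun n => Gn k H B R M n)) : ℝ) := by
  have hX0 : 0 < X := by linarith
  obtain ⟨Q, hQd⟩ : ∃ Q : ℝ, Q = QQ K X W W.primeFactors := ⟨_, rfl⟩
  rw [← hQd] at hQ hpos hM ⊢
  have hpt : ∀ n ∈ Icc 1 ⌊3 * X⌋₊, nu X W a0 n *
        (if (k + 1 ≤ (univ.filter (fun j => (n + t j).Prime)).card) ∧ RA δ X t n then 1 else 0) ≤
      nu X W a0 n * (if Gn k H B R M n then 1 else 0) +
      ∑ m ∈ M, nu X W a0 n * (if RA δ X t n ∧ ∃ j, (n + t j).Prime ∧ BadM B R (n + t j) m then 1 else 0) := by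
    intro n hn
    have hnu := nu_nonneg X W a0 n
    have hsum0 : 0 ≤ ∑ m ∈ M, nu X W a0 n * (if RA δ X t n ∧ ∃ j, (n + t j).Prime ∧ BadM B R (n + t j) m then (1:ℝ) else 0) := by
      apply sum_nonneg
      intro m _
      apply mul_nonneg hnu
      split_ifs <;> norm_num
    have hfirst0 : 0 ≤ nu X W a0 n * (if Gn k H B R M n then (1:ℝ) else 0) := by
      apply mul_nonneg hnu
      split_ifs <;> norm_num
    by_cases hn0 : nu X W a0 n = 0
    · rw [hn0, zero_mul]
      rw [hn0] at hfirst0 hsum0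
      linarith
    have hmod : n ≡ a0 [MOD W] := by
      by_contra h
      apply hn0
      unfold nu
      rw [if_neg h]
    have hnX : X < n := by
      by_contra hle
      push Not at hle
      apply hn0
      unfold nu
      rw [Phi_eq_zero_of_le (by positivity) (by rw [div_le_one hX0]; exact hle), ite_self]
    have hWn : W < n := by
      have : (W:ℝ) < n := by linarith
      exact_mod_cast this
    by_cases hev : (k + 1 ≤ (univ.filter (fun j => (n + t j).Prime)).card) ∧ RA δ X t n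
    · rw [if_pos hev, mul_one]
      by_cases hbad : ∃ m ∈ M, ∃ j, (n + t j).Prime ∧ BadM B R (n + t j) m
      · obtain ⟨m, hm, hj⟩ := hbad
        have h1 := single_le_sum (f := fun m => nu X W a0 n *
          (if RA δ X t n ∧ ∃ j, (n + t j).Prime ∧ BadM B R (n + t j) m then (1:ℝ) else 0)) (fun m _ => by
            apply mul_nonneg hnu
            split_ifs <;> norm_num) hm
        beta_reduce at h1
        rw [if_pos ⟨hev.2, hj⟩, mul_one] at h1
        linarith
      · have hG : Gn k H B R M n := by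
          constructor
          · refine hev.1.trans ?_
            apply card_le_card_of_injOn (fun j => n + t j)
            · intro j hj
              rw [mem_coe, mem_filter] at hj
              have := hc.tH j
              have h2 : n + t j ∈ Ioc n (n + H) := mem_Ioc.2 ⟨by omega, by omega⟩
              exact mem_filter.2 ⟨h2, hj.2⟩
            · intro i _ j _ hij
              beta_reduce at hij
              exact hc.inj (by omega)
          · intro p hp hpp m hm hb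
            rw [mem_Ioc] at hp
            obtain ⟨h, rfl⟩ := Nat.exists_eq_add_of_lt hp.1
            obtain ⟨j, hj⟩ := hc.pr n hmod hWn (h + 1) (by omega) (by omega) (by rw [← add_assoc]; exact hpp)
            apply hbad
            refine ⟨m, hm, j, ?_, ?_⟩
            · rw [← hj, ← add_assoc]; exact hpp
            · rw [← hj, ← add_assoc]; exact hb
        rw [if_pos hG, mul_one]
        linarith
    · rw [if_neg hev, mul_zero]
      linarith
  have h1 := hpos.trans (sum_le_sum hpt)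
  rw [sum_add_distrib, sum_comm] at h1
  have h2 : ∑ m ∈ M, ∑ n ∈ Icc 1 ⌊3 * X⌋₊, nu X W a0 n *
      (if RA δ X t n ∧ ∃ j, (n + t j).Prime ∧ BadM B R (n + t j) m then (1:ℝ) else 0) ≤ c0 / 2 * Q := by
    calc _ ≤ ∑ _m ∈ M, c0 / (2 * (J + 1)) * Q := sum_le_sum fun m hm => hM m hm
      _ = #M * (c0 / (2 * (J + 1)) * Q) := by rw [sum_const, nsmul_eq_mul]
      _ ≤ (J + 1) * (c0 / (2 * (J + 1)) * Q) := by
          apply mul_le_mul_of_nonneg_right _ (by positivity)
          have : (#M : ℝ) ≤ J := by exact_mod_cast hMJ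
          linarith
      _ = _ := by field_simp
  have h3 : ∑ n ∈ Icc 1 ⌊3 * X⌋₊, nu X W a0 n * (if Gn k H B R M n then (1:ℝ) else 0) ≤
      (#((Ioc ⌊X⌋₊ ⌊3 * X⌋₊).filter (fun n => Gn k H B R M n)) : ℝ) := by
    rw [card_filter]
    push_cast
    have hsub : Ioc ⌊X⌋₊ ⌊3 * X⌋₊ ⊆ Icc 1 ⌊3 * X⌋₊ := by
      intro n hn
      rw [mem_Ioc] at hn
      rw [mem_Icc]
      omega
    rw [← sum_subset hsub]
    · apply sum_le_sum
      intro n _
      have h4 : nu X W a0 n ≤ 1 := by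
        unfold nu
        split_ifs
        · exact Phi_le_one _
        · norm_num
      split_ifs
      · linarith
      · linarith
    · intro n hn hn'
      rw [mem_Icc] at hn
      rw [mem_Ioc, not_and_or, not_lt] at hn'
      rcases hn' with hn' | hn'
      · have hnX : (n:ℝ) ≤ X := (Nat.le_floor_iff hX0.le).1 hn'
        unfold nu
        rw [Phi_eq_zero_of_le (by positivity) (by rw [div_le_one hX0]; exact hnX), ite_self, zero_mul]
      · omega
  linarith

open Classical in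
/-- few bad multipliers at one scale -/
theorem few_at_scale (k : ℕ) : ∃ K : ℕ, ∀ D : ℤ, Squarefree D → D % 4 = 1 → D ≠ 1 → ∀ R J : ℕ, ∃ H : ℕ,
    ∀ d : ℝ, 0 < d → d < 1 → ∀ᶠ X : ℝ in atTop, ∀ b : ℤ, b ≠ 0 → (b.natAbs : ℝ) ≤ X → ∀ N : ℕ, (N : ℝ) ≤ X →
      ∃ Z ⊆ Icc 1 N,
        ((#((PP ⌊4 * X⌋₊).filter (fun p => ¬ Good Z ((#Z : ℝ) / Real.log ⌊4 * X⌋₊) p)) : ℝ) ≤
          12 * (⌊4 * X⌋₊ : ℝ) ^ (1 - d) → Z = ∅) ∧
        ∀ M ⊆ Icc 1 N \ Z, #M ≤ J → X / Real.log X ^ (K + 4) ≤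
          (#((Ioc ⌊X⌋₊ ⌊3 * X⌋₊).filter (fun n => Gn k H (D * b ^ 2) R M n)) : ℝ) := by
  obtain ⟨K, hK1, δ, hδ, hδ1, c0, hc0, z, hpos⟩ := pos1 k
  obtain ⟨C1, hC1, z1, hup⟩ := rough_up K hδ
  refine ⟨K, fun D hD hD4 hD1 R J => ?_⟩
  -- the size of `y`
  obtain ⟨A, hA⟩ : ∃ A : ℝ, A = c0 / (16 * (J + 1)) := ⟨_, rfl⟩
  have hA0 : 0 < A := by rw [hA]; positivity
  obtain ⟨G, hG⟩ : ∃ G : ℝ, G = R * K * C1 + 1 := ⟨_, rfl⟩
  have hG0 : 0 < G := by rw [hG]; positivity
  obtain ⟨y0, hy0⟩ : ∃ y0 : ℕ, y0 = ⌈G * 2 ^ K / A⌉₊ := ⟨_, rfl⟩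
  set y : ℕ := 2 + D.natAbs + K + R + z + z1 + y0 with hy
  have hyA : G * 2 ^ K / A ≤ y := by
    have h1 : G * 2 ^ K / A ≤ y0 := by rw [hy0]; exact Nat.le_ceil _
    have h2 : (y0:ℝ) ≤ y := by exact_mod_cast (by omega : y0 ≤ y)
    linarith
  obtain ⟨W, a0, H, t, hcfg⟩ := cfg_exists hD hD4 hD1 K (y := y) (by omega) (by omega) (by omega)
  refine ⟨H, fun d hd hd1 => ?_⟩
  have hy0' : (0:ℝ) < y := by exact_mod_cast (by omega : 0 < y)
  have hWpos := hcfg.pos
  set ε : ℝ := A / G with hε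
  have hε0 : 0 < ε := by rw [hε]; positivity
  -- the eventual facts
  have ev1 : ∀ᶠ X : ℝ in atTop, K * (12 * (4 * X) ^ (1 - d)) ≤ 2 * A * (X / (20 * Real.log X ^ (3 + K))) := by
    have h1 : ∀ᶠ l : ℝ in atTop, (K * 12 * 4 * 20 / (2 * A)) * l ^ (3 + K) ≤ Real.exp (d * l) :=
      ev_pow_exp (3 + K) d (K * 12 * 4 * 20 / (2 * A)) hd
    filter_upwards [Real.tendsto_log_atTop.eventually h1, Real.tendsto_log_atTop.eventually_ge_atTop 1, eventually_gt_atTop 1] with X h1 h2 h3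
    have hX0 : 0 < X := by linarith
    have hl0 : 0 < Real.log X := by linarith
    have e1 : Real.exp (d * Real.log X) = X ^ d := by
      rw [Real.rpow_def_of_pos hX0, mul_comm]
    rw [e1] at h1
    have hXd : 0 < X ^ d := Real.rpow_pos_of_pos hX0 _
    have e2 : (4 * X) ^ (1 - d) ≤ 4 * (X / X ^ d) := by
      rw [Real.mul_rpow (by norm_num) hX0.le, Real.rpow_sub hX0, Real.rpow_one]
      apply mul_le_mul_of_nonneg_right _ (by positivity)
      calc (4:ℝ) ^ (1 - d) ≤ (4:ℝ) ^ (1:ℝ) := Real.rpow_le_rpow_of_exponent_le (by norm_num) (by linarith)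
        _ = 4 := Real.rpow_one 4
    calc K * (12 * (4 * X) ^ (1 - d)) ≤ K * (12 * (4 * (X / X ^ d))) := by gcongr
      _ ≤ 2 * A * (X / (20 * Real.log X ^ (3 + K))) := by
          rw [div_mul_eq_mul_div, div_le_iff₀ (by positivity)] at h1
          have h4 : (K:ℝ) * (12 * (4 * (X / X ^ d))) = (K * 12 * 4 * X) / X ^ d := by ring
          have h5 : 2 * A * (X / (20 * Real.log X ^ (3 + K))) = (2 * A * X) / (20 * Real.log X ^ (3 + K)) := by ring
          rw [h4, h5, div_le_div_iff₀ hXd (by positivity)]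
          have h6 : 0 ≤ X := hX0.le
          calc K * 12 * 4 * X * (20 * Real.log X ^ (3 + K)) = X * (K * 12 * 4 * 20 * Real.log X ^ (3 + K)) := by ring
            _ ≤ X * (X ^ d * (2 * A)) := by gcongr
            _ = _ := by ring
  have tl := Real.tendsto_log_atTop
  filter_upwards [hpos, hup, cs_fix (z + z1) W hWpos (fun q hq hqz => hcfg.sm q hq (by omega)), omega_small hε0,
    QQ_ge K, ev1, LL_tendsto.eventually_ge_atTop 1, tl.eventually_ge_atTop 2, tl.eventually_ge_atTop (40 / c0),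
    eventually_ge_atTop (max 4 (max (W:ℝ) ((H:ℝ) ^ 2)))] with X hpos hup hcs hom hQge hev hLL hlog2 hlogc hXbig
  intro b hb hbX N hNX
  have hX4 : 4 ≤ X := (le_max_left _ _).trans hXbig
  have hWX : (W:ℝ) ≤ X := (le_max_left _ _).trans ((le_max_right _ _).trans hXbig)
  have hH2 : (H:ℝ) ^ 2 ≤ X := (le_max_right _ _).trans ((le_max_right _ _).trans hXbig)
  have hX0 : 0 < X := by linarith
  have hpr : ∀ p ∈ W.primeFactors, p.Prime := fun p hp => Nat.prime_of_mem_primeFactors hp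
  obtain ⟨Q, hQd⟩ : ∃ Q : ℝ, Q = QQ K X W W.primeFactors := ⟨_, rfl⟩
  have hQ : 0 ≤ Q := by rw [hQd]; exact QQ_nonneg K (by linarith) hpr
  have hsqH : (H:ℝ) ≤ Real.sqrt X := Real.le_sqrt_of_sq_le hH2
  have hsqX : Real.sqrt X ≤ X := by
    rw [Real.sqrt_le_left (by linarith)]
    nlinarith
  have hHX : (H:ℝ) ≤ X := hsqH.trans hsqX
  have hcsz : CS X z W W.primeFactors := ⟨hcs.1.gs.mono (by omega), hcs.1.pos, hcs.1.le, hcs.1.dv⟩
  have hcsz1 : CS X z1 W W.primeFactors ∧ ∀ q : ℕ, q.Prime → ¬ q ∣ W → (q : ℝ) ≤ Real.log X →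
      CS X z1 (W * q) (insert q W.primeFactors) := by
    refine ⟨⟨hcs.1.gs.mono (by omega), hcs.1.pos, hcs.1.le, hcs.1.dv⟩, fun q hq hqW hql => ?_⟩
    have h := hcs.2 q hq hqW hql
    exact ⟨h.gs.mono (by omega), h.pos, h.le, h.dv⟩
  -- positivity
  have hpos' : c0 * Q ≤ ∑ n ∈ Icc 1 ⌊3 * X⌋₊, nu X W a0 n *
        (if (k + 1 ≤ (univ.filter (fun j => (n + t j).Prime)).card) ∧ RA δ X t n then 1 else 0) := by
    rw [hQd]
    have h1 := hpos W W.primeFactors a0 t hcsz hcfg.sqf hcfg.dt hcfg.cop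
      (fun j => (by exact_mod_cast (hcfg.tH j).2 : ((t j : ℕ) : ℝ) ≤ H).trans hsqH)
      (by
        have : W.primeFactors.filter (fun p => ¬ p ∣ W) = ∅ := by
          apply filter_eq_empty_iff.2
          intro p hp h
          exact h (Nat.dvd_of_mem_primeFactors hp)
        rw [this, sum_empty]
        exact hδ.le)
      (by
        have h2 : (W.totient : ℝ) = W * BE W.primeFactors := by
          unfold BE
          have h3 := Nat.totient_eq_mul_prod_factors W
          have h4 : ((W.totient : ℚ) : ℝ) = ((W * ∏ p ∈ W.primeFactors, (1 - (p : ℚ)⁻¹) : ℚ) : ℝ) := by rw [h3]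
          push_cast at h4
          rw [h4]
          congr 1
          apply prod_congr rfl
          intro p _
          rw [one_div]
        rw [h2]
        have h3 : 0 < BE W.primeFactors := BE_pos hpr
        have h4 : (0:ℝ) < W := by exact_mod_cast hWpos
        have : 0 < (W:ℝ) * BE W.primeFactors := by positivity
        linarith)
    refine h1.trans (le_of_eq (sum_congr rfl fun n _ => ?_))
    congr 1
    exact if_congr Iff.rfl rfl rfl
  have hup' : ∀ (W : ℕ) (E : Finset ℕ) (a0 : ℕ) (t : Fin K → ℕ), CS X z1 W E → DT E t →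
      ∑ n ∈ Icc 1 ⌊3 * X⌋₊, nu X W a0 n * (if RA δ X t n then 1 else 0) ≤ C1 * QQ K X W E := by
    intro W E a0 t h1 h2
    refine le_trans (le_of_eq (sum_congr rfl fun n _ => ?_)) (hup W E a0 t h1 h2)
    congr 1
    exact if_congr Iff.rfl rfl rfl
  -- the exceptional set
  refine ⟨(Icc 1 N).filter (fun m => c0 / (2 * (J + 1)) * Q < Sb δ X W a0 t (D * b ^ 2) R m), filter_subset _ _, ?_, ?_⟩
  · set Z := (Icc 1 N).filter (fun m => c0 / (2 * (J + 1)) * Q < Sb δ X W a0 t (D * b ^ 2) R m) with hZ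
    intro hS
    by_contra hne
    have hZne : Z.Nonempty := nonempty_iff_ne_empty.2 hne
    have hZc : (0:ℝ) < #Z := by exact_mod_cast card_pos.2 hZne
    have hL : Real.log X ≤ Real.log ⌊4 * X⌋₊ := by
      apply Real.log_le_log hX0
      have : 4 * X < ⌊4 * X⌋₊ + 1 := Nat.lt_floor_add_one _
      linarith
    have h1 := sum_Sb hcfg hC1.le (by omega) hup' hcsz1 hom (by linarith) hlog2 hL b (R := R) (by omega) hb hbX
      (by linarith) hHX Z ((PP ⌊4 * X⌋₊).filter (fun p => ¬ Good Z ((#Z : ℝ) / Real.log ⌊4 * X⌋₊) p))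
      (fun m hm => by
        rw [hZ, mem_filter, mem_Icc] at hm
        refine ⟨hm.1.1, ?_⟩
        have : (m:ℝ) ≤ N := by exact_mod_cast hm.1.2
        linarith)
      (fun p hp hpS => by
        by_contra hg
        exact hpS (mem_filter.2 ⟨hp, hg⟩))
    have h2 : (#Z : ℝ) * (c0 / (2 * (J + 1)) * Q) ≤ ∑ m ∈ Z, Sb δ X W a0 t (D * b ^ 2) R m := by
      rw [← nsmul_eq_mul]
      apply card_nsmul_le_sum
      intro m hm
      exact (mem_filter.1 hm).2.le
    have h3 := h2.trans h1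
    have h4 := le_of_mul_le_mul_left h3 hZc
    have h5 : (K:ℝ) * #((PP ⌊4 * X⌋₊).filter (fun p => ¬ Good Z ((#Z : ℝ) / Real.log ⌊4 * X⌋₊) p)) ≤ 2 * A * Q := by
      have h6 : ((⌊4 * X⌋₊ : ℕ) : ℝ) ^ (1 - d) ≤ (4 * X) ^ (1 - d) :=
        Real.rpow_le_rpow (Nat.cast_nonneg _) (Nat.floor_le (by linarith)) (by linarith)
      have h7 := hQge W W.primeFactors hWpos hcs.1.le hpr
      rw [← hQd] at h7
      calc (K:ℝ) * #((PP ⌊4 * X⌋₊).filter (fun p => ¬ Good Z ((#Z : ℝ) / Real.log ⌊4 * X⌋₊) p)) ≤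
          K * (12 * (⌊4 * X⌋₊ : ℝ) ^ (1 - d)) := mul_le_mul_of_nonneg_left hS (Nat.cast_nonneg _)
        _ ≤ K * (12 * (4 * X) ^ (1 - d)) := by gcongr
        _ ≤ 2 * A * (X / (20 * Real.log X ^ (3 + K))) := hev
        _ ≤ 2 * A * Q := mul_le_mul_of_nonneg_left h7 (by positivity)
    have h7 : (R:ℝ) * K * (C1 * QQ K X W W.primeFactors * (2 ^ K / y + ε)) ≤ 2 * A * Q := by
      rw [← hQd]
      have h8 : 2 ^ K / (y:ℝ) ≤ ε := by
        rw [hε, div_le_div_iff₀ hy0' hG0]
        rw [div_le_iff₀ hA0] at hyA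
        linarith
      have h9 : (R:ℝ) * K * C1 * ε ≤ A := by
        have h10 : (R:ℝ) * K * C1 ≤ G := by rw [hG]; linarith
        calc (R:ℝ) * K * C1 * ε ≤ G * ε := mul_le_mul_of_nonneg_right h10 hε0.le
          _ = A := by rw [hε]; field_simp
      calc (R:ℝ) * K * (C1 * Q * (2 ^ K / y + ε)) ≤ (R:ℝ) * K * (C1 * Q * (ε + ε)) := by gcongr
        _ = 2 * ((R:ℝ) * K * C1 * ε) * Q := by ring
        _ ≤ 2 * A * Q := by gcongr
    have h11 : c0 / (2 * (J + 1)) = 8 * A := by rw [hA]; field_simp; norm_num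
    rw [h11] at h4
    have hQpos : 0 < Q := by
      have := hQge W W.primeFactors hWpos hcs.1.le hpr
      rw [← hQd] at this
      refine lt_of_lt_of_le ?_ this
      have : 0 < Real.log X := by linarith
      positivity
    have h12 : 0 < A * Q := by positivity
    linarith
  · intro M hM hMJ
    have h1 := lower_scale (J := J) (R := R) hcfg (D * b ^ 2) (by rw [← hQd]; exact hQ) hc0 (by rw [← hQd]; exact hpos') (by linarith) hWX M hMJ
      (fun m hm => by
        have h2 := Finset.mem_sdiff.1 (hM hm)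
        rw [mem_filter, not_and, not_lt] at h2
        rw [← hQd]
        exact h2.2 h2.1)
    refine le_trans ?_ h1
    have h3 := hQge W W.primeFactors hWpos hcs.1.le hpr
    have hl0 : 0 < Real.log X := by linarith
    calc X / Real.log X ^ (K + 4) ≤ c0 / 2 * (X / (20 * Real.log X ^ (3 + K))) := by
          rw [div_mul_div_comm, div_le_div_iff₀ (by positivity) (by positivity)]
          have h4 : 40 ≤ Real.log X * c0 := by rwa [div_le_iff₀ hc0] at hlogc
          calc X * (2 * (20 * Real.log X ^ (3 + K))) = 40 * (X * Real.log X ^ (3 + K)) := by ring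
            _ ≤ (Real.log X * c0) * (X * Real.log X ^ (3 + K)) := by gcongr
            _ = c0 * X * Real.log X ^ (K + 4) := by ring
      _ ≤ _ := by gcongr

end Pool.Agent.TH891.PR
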