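import Pool.Agent.TH891.PR.P5
import Pool.Agent.H771R4.SE.LS2

set_option autoImplicit false

/-! # All scales -/

namespace Pool.Agent.TH891.PR

open Finset Filter Topology
open Pool.Agent.H386R2.Artin (PP Good)

open Classical in
theorem main (θ C : ℝ) (hθ : 1 / 2 < θ) (hθ1 : θ < 1) (hC : 1 < C) (hCθ : θ * (1 - θ) < C * (2 * θ - 1)) :
    ∃ c : ℝ, 0 < c ∧ ∀ k : ℕ, ∃ κ : ℕ, ∀ D : ℤ, Squarefree D → D % 4 = 1 → D ≠ 1 → ∀ R J : ℕ,
      ∃ H N₀ : ℕ, ∀ N : ℕ, N₀ ≤ N → ∀ b : ℤ, b ≠ 0 → (b.natAbs : ℝ) ≤ (N : ℝ) ^ C →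
        ∃ Z ⊆ Icc 1 N, (#Z : ℝ) ≤ (N : ℝ) ^ θ ∧ ∀ M ⊆ Icc 1 N \ Z, #M ≤ J →
          ∀ x : ℕ, (N : ℝ) ^ C ≤ x → Real.log x ≤ (Real.log N) ^ (1 + c) →
            (x : ℝ) / Real.log x ^ κ ≤ (#((Ioc x (6 * x)).filter (fun n => Gn k H (D * b ^ 2) R M n)) : ℝ) := by
  obtain ⟨θ₀, δ, c, h12, h0θ, hδ, hc, N₁, hfew⟩ := Pool.Agent.H771R4.SE.fewBad2 θ C hθ hθ1 hC hCθ
  refine ⟨c / 2, by positivity, fun k => ?_⟩
  obtain ⟨K, hscale⟩ := few_at_scale k
  refine ⟨K + 5, fun D hD hD4 hD1 R J => ?_⟩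
  obtain ⟨H, hH⟩ := hscale D hD hD4 hD1 R J
  obtain ⟨d, hdd⟩ : ∃ d : ℝ, d = min δ (1 / 2) := ⟨_, rfl⟩
  have hd0 : 0 < d := by rw [hdd]; exact lt_min hδ (by norm_num)
  have hd1 : d < 1 := by rw [hdd]; exact lt_of_le_of_lt (min_le_right _ _) (by norm_num)
  have hdδ : d ≤ δ := by rw [hdd]; exact min_le_left _ _
  obtain ⟨X₁, hX₁⟩ := eventually_atTop.1 (hH d hd0 hd1)
  have tN : Tendsto (fun N : ℕ => (N : ℝ)) atTop atTop := tendsto_natCast_atTop_atTop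
  have tL : Tendsto (fun N : ℕ => Real.log (N : ℝ)) atTop atTop := Real.tendsto_log_atTop.comp tN
  have e1 : ∀ᶠ l : ℝ in atTop, l ^ (1 + c / 2) + 3 ≤ l ^ (1 + c) := by
    have h1 := (tendsto_rpow_atTop (show 0 < c / 2 by positivity)).eventually_ge_atTop 4
    filter_upwards [h1, eventually_ge_atTop 1] with l h1 h2
    have h3 : l ^ (1 + c) = l ^ (1 + c / 2) * l ^ (c / 2) := by
      rw [← Real.rpow_add (by linarith)]; congr 1; ring
    have h4 : 1 ≤ l ^ (1 + c / 2) := Real.one_le_rpow h2 (by positivity)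
    rw [h3]
    nlinarith
  have e2 : ∀ᶠ l : ℝ in atTop, 2 * l ^ (1 + c) + 1 ≤ Real.exp ((θ - θ₀) * l) := by
    obtain ⟨m, hm⟩ := exists_nat_ge (1 + c)
    have h1 : ∀ᶠ l : ℝ in atTop, 3 * l ^ m ≤ Real.exp ((θ - θ₀) * l) :=
      Pool.Agent.H378R2.ev_pow_exp m (θ - θ₀) 3 (by linarith)
    filter_upwards [h1, eventually_ge_atTop 1] with l h1 h2
    have h3 : l ^ (1 + c) ≤ l ^ m := by
      rw [← Real.rpow_natCast]
      exact Real.rpow_le_rpow_of_exponent_le h2 hm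
    have h4 : 1 ≤ l ^ m := one_le_pow₀ h2
    linarith
  obtain ⟨N₂, hN₂⟩ := eventually_atTop.1 ((((tL.eventually e1).and (tL.eventually e2)).and
    (tL.eventually_ge_atTop (2 ^ (K + 4) : ℝ))).and ((tN.eventually_ge_atTop X₁).and (eventually_ge_atTop (max 2 N₁))))
  refine ⟨H, N₂, fun N hN b hb hbC => ?_⟩
  obtain ⟨⟨⟨g1, g2⟩, g3⟩, g4, g5⟩ := hN₂ N hN
  have hN2 : 2 ≤ N := (le_max_left _ _).trans g5
  have hNN₁ : N₁ ≤ N := (le_max_right _ _).trans g5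
  have hN0 : (0 : ℝ) < N := by exact_mod_cast (by omega : 0 < N)
  have hN1 : (1 : ℝ) ≤ N := by exact_mod_cast (by omega : 1 ≤ N)
  have hl1 : 1 ≤ Real.log N := by
    refine le_trans ?_ g3
    exact one_le_pow₀ (by norm_num)
  have hNC : (N : ℝ) ≤ (N : ℝ) ^ C := by
    calc (N : ℝ) = (N : ℝ) ^ (1 : ℝ) := (Real.rpow_one _).symm
      _ ≤ _ := Real.rpow_le_rpow_of_exponent_le hN1 hC.le
  obtain ⟨l, hl⟩ : ∃ l : ℝ, l = Real.log (N : ℝ) := ⟨_, rfl⟩
  rw [← hl] at g1 g2 g3 hl1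
  have hl0 : 0 < l := by linarith
  obtain ⟨U, hU⟩ : ∃ U : ℝ, U = l ^ (1 + c) := ⟨_, rfl⟩
  have hU0 : 0 < U := by rw [hU]; exact Real.rpow_pos_of_pos hl0 _
  set I : Finset ℕ := (range (⌊2 * U⌋₊ + 1)).filter (fun i => (N : ℝ) ^ C ≤ (2:ℝ) ^ i ∧ Real.log ((4 * 2 ^ i : ℕ) : ℝ) ≤ U) with hI
  -- the set at one scale
  have hone : ∀ i : ℕ, ∃ Z : Finset ℕ, i ∈ I → Z ⊆ Icc 1 N ∧ (#Z : ℝ) ≤ (N : ℝ) ^ θ₀ ∧
      ∀ M ⊆ Icc 1 N \ Z, #M ≤ J → ((2 ^ i : ℕ) : ℝ) / Real.log ((2 ^ i : ℕ) : ℝ) ^ (K + 4) ≤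
          (#((Ioc (2 ^ i) (3 * 2 ^ i)).filter (fun n => Gn k H (D * b ^ 2) R M n)) : ℝ) := by
    intro i
    by_cases hi : i ∈ I
    · rw [hI, mem_filter] at hi
      obtain ⟨-, hi1, hi2⟩ := hi
      have hcast : ((2 ^ i : ℕ) : ℝ) = (2:ℝ) ^ i := by push_cast; ring
      have hX : X₁ ≤ ((2 ^ i : ℕ) : ℝ) := by rw [hcast]; linarith
      obtain ⟨Z, hZN, hZ1, hZ2⟩ := hX₁ ((2 ^ i : ℕ) : ℝ) hX b hb (by rw [hcast]; linarith) N (by rw [hcast]; linarith)
      have hf4 : ⌊4 * ((2 ^ i : ℕ) : ℝ)⌋₊ = 4 * 2 ^ i := by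
        have : 4 * ((2 ^ i : ℕ) : ℝ) = ((4 * 2 ^ i : ℕ) : ℝ) := by push_cast; ring
        rw [this, Nat.floor_natCast]
      have hf3 : ⌊3 * ((2 ^ i : ℕ) : ℝ)⌋₊ = 3 * 2 ^ i := by
        have : 3 * ((2 ^ i : ℕ) : ℝ) = ((3 * 2 ^ i : ℕ) : ℝ) := by push_cast; ring
        rw [this, Nat.floor_natCast]
      rw [hf4] at hZ1
      refine ⟨Z, fun _ => ⟨hZN, ?_, ?_⟩⟩
      · by_contra hlt
        push Not at hlt
        have h1 := hfew N (4 * 2 ^ i) hNN₁ (by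
            push_cast
            have : (0:ℝ) < 2 ^ i := by positivity
            linarith) (by rw [← hl, ← hU]; exact hi2) Z hZN hlt.le
            ((PP (4 * 2 ^ i)).filter (fun p => ¬ Good Z ((#Z : ℝ) / Real.log ((4 * 2 ^ i : ℕ) : ℝ)) p))
            (fun p hp => mem_filter.1 hp)
        have h2 : ((4 * 2 ^ i : ℕ) : ℝ) ^ (1 - δ) ≤ ((4 * 2 ^ i : ℕ) : ℝ) ^ (1 - d) := by
          apply Real.rpow_le_rpow_of_exponent_le _ (by linarith)
          exact_mod_cast Nat.one_le_iff_ne_zero.2 (by positivity)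
        have h3 := hZ1 (h1.trans (by linarith))
        rw [h3, card_empty] at hlt
        have h4 : 0 < (N : ℝ) ^ θ₀ := Real.rpow_pos_of_pos hN0 _
        norm_num at hlt
        linarith
      · intro M hM hMJ
        have h1 := hZ2 M hM hMJ
        rw [Nat.floor_natCast, hf3] at h1
        exact h1
    · exact ⟨∅, fun h => absurd h hi⟩
  choose Z hZ using hone
  refine ⟨I.biUnion Z, ?_, ?_, ?_⟩
  · intro m hm
    rw [mem_biUnion] at hm
    obtain ⟨i, hi, hm⟩ := hm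
    exact (hZ i hi).1 hm
  · have h1 : (#(I.biUnion Z) : ℝ) ≤ #I * (N : ℝ) ^ θ₀ := by
      have h2 : (#(I.biUnion Z) : ℝ) ≤ ∑ i ∈ I, (#(Z i) : ℝ) := by exact_mod_cast card_biUnion_le
      refine h2.trans ?_
      rw [← nsmul_eq_mul]
      exact sum_le_card_nsmul _ _ _ fun i hi => (hZ i hi).2.1
    refine h1.trans ?_
    have h2 : (#I : ℝ) ≤ 2 * U + 1 := by
      have h3 : #I ≤ ⌊2 * U⌋₊ + 1 := by
        refine (card_le_card (filter_subset _ _)).trans ?_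
        rw [card_range]
      have h4 : (⌊2 * U⌋₊ : ℝ) ≤ 2 * U := Nat.floor_le (by positivity)
      have h5 : (#I : ℝ) ≤ ⌊2 * U⌋₊ + 1 := by exact_mod_cast h3
      linarith
    have h3 : Real.exp ((θ - θ₀) * l) = (N : ℝ) ^ (θ - θ₀) := by
      rw [Real.rpow_def_of_pos hN0, ← hl, mul_comm]
    rw [← hU, h3] at g2
    have h4 : (N : ℝ) ^ θ = (N : ℝ) ^ (θ - θ₀) * (N : ℝ) ^ θ₀ := by
      rw [← Real.rpow_add hN0]; congr 1; ring
    rw [h4]
    exact mul_le_mul_of_nonneg_right (h2.trans g2) (Real.rpow_nonneg hN0.le _)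
  · intro M hM hMJ x hx1 hx2
    rw [← hl] at hx2
    have hxN : (N : ℝ) ≤ x := hNC.trans hx1
    have hxN' : N ≤ x := by exact_mod_cast hxN
    have hx2' : 2 ≤ x := by omega
    have hx0 : (0 : ℝ) < x := by linarith
    obtain ⟨i, hi⟩ : ∃ i : ℕ, i = Nat.clog 2 x := ⟨_, rfl⟩
    have hi1 : x ≤ 2 ^ i := by rw [hi]; exact Nat.le_pow_clog (by norm_num) x
    have hi2 : 2 ^ i < 2 * x := by
      have h1 : 1 ≤ i := by
        rcases Nat.eq_zero_or_pos i with h0 | h0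
        · rw [h0] at hi1; omega
        · exact h0
      have h2 : 2 ^ (i - 1) < x := by
        rw [hi] at h1 ⊢
        exact Nat.pow_pred_clog_lt_self (by norm_num) (by omega)
      have h3 : 2 ^ i = 2 * 2 ^ (i - 1) := by
        rw [← pow_succ']
        congr 1
        omega
      omega
    have hi1' : (x : ℝ) ≤ ((2 ^ i : ℕ) : ℝ) := by exact_mod_cast hi1
    have hi2' : ((2 ^ i : ℕ) : ℝ) ≤ 2 * x := by exact_mod_cast hi2.le
    have hpow0 : (0:ℝ) < ((2 ^ i : ℕ) : ℝ) := by positivity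
    have hlog8 : Real.log 8 ≤ 3 := by
      rw [show (8:ℝ) = 2 ^ 3 by norm_num, Real.log_pow]
      have := Real.log_two_lt_d9
      push_cast
      linarith
    have hlogi : Real.log ((4 * 2 ^ i : ℕ) : ℝ) ≤ U := by
      have h1 : ((4 * 2 ^ i : ℕ) : ℝ) ≤ 8 * x := by
        push_cast
        push_cast at hi2'
        linarith
      have h2 := Real.log_le_log (by positivity) h1
      rw [Real.log_mul (by norm_num) hx0.ne'] at h2
      rw [hU]
      linarith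
    have hiI : i ∈ I := by
      rw [hI, mem_filter, mem_range]
      refine ⟨?_, ?_, hlogi⟩
      · have h1 : (i : ℝ) ≤ 2 * U := by
          have h2 : Real.log ((2 ^ i : ℕ) : ℝ) ≤ Real.log ((4 * 2 ^ i : ℕ) : ℝ) := by
            apply Real.log_le_log hpow0
            exact_mod_cast (by omega : 2 ^ i ≤ 4 * 2 ^ i)
          have h3 : Real.log ((2 ^ i : ℕ) : ℝ) = i * Real.log 2 := by
            push_cast
            rw [Real.log_pow]
          have h4 := Real.log_two_gt_d9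
          rw [h3] at h2
          have h5 : (0:ℝ) ≤ i := Nat.cast_nonneg i
          nlinarith
        have h2 := Nat.le_floor h1
        omega
      · push_cast at hi1'
        linarith
    obtain ⟨-, -, hZ3⟩ := hZ i hiI
    have hMi : M ⊆ Icc 1 N \ Z i := by
      intro m hm
      have h1 := Finset.mem_sdiff.1 (hM hm)
      refine Finset.mem_sdiff.2 ⟨h1.1, fun h2 => h1.2 ?_⟩
      exact mem_biUnion.2 ⟨i, hiI, h2⟩
    have h1 := hZ3 M hMi hMJ
    have h2 : (#((Ioc (2 ^ i) (3 * 2 ^ i)).filter (fun n => Gn k H (D * b ^ 2) R M n)) : ℝ) ≤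
        (#((Ioc x (6 * x)).filter (fun n => Gn k H (D * b ^ 2) R M n)) : ℝ) := by
      have : (Ioc (2 ^ i) (3 * 2 ^ i)).filter (fun n => Gn k H (D * b ^ 2) R M n) ⊆
          (Ioc x (6 * x)).filter (fun n => Gn k H (D * b ^ 2) R M n) := by
        intro n hn
        rw [mem_filter, mem_Ioc] at hn ⊢
        exact ⟨⟨by omega, by omega⟩, hn.2⟩
      exact_mod_cast card_le_card this
    refine le_trans ?_ (h1.trans h2)
    have hlx : 2 ^ (K + 4) ≤ Real.log x := by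
      refine g3.trans ?_
      rw [hl]
      exact Real.log_le_log hN0 hxN
    have hlx0 : 0 < Real.log x := lt_of_lt_of_le (by positivity) hlx
    have hlX : Real.log ((2 ^ i : ℕ) : ℝ) ≤ 2 * Real.log x := by
      have h3 := Real.log_le_log hpow0 hi2'
      rw [Real.log_mul (by norm_num) hx0.ne'] at h3
      have h4 : Real.log 2 ≤ Real.log x := Real.log_le_log (by norm_num) (by exact_mod_cast hx2')
      linarith
    have hlX0 : 0 < Real.log ((2 ^ i : ℕ) : ℝ) := lt_of_lt_of_le hlx0 (Real.log_le_log hx0 hi1')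
    calc (x : ℝ) / Real.log x ^ (K + 5) ≤ x / Real.log ((2 ^ i : ℕ) : ℝ) ^ (K + 4) := by
          apply div_le_div_of_nonneg_left hx0.le (by positivity)
          calc Real.log ((2 ^ i : ℕ) : ℝ) ^ (K + 4) ≤ (2 * Real.log x) ^ (K + 4) :=
                pow_le_pow_left₀ hlX0.le hlX _
            _ = 2 ^ (K + 4) * Real.log x ^ (K + 4) := by rw [mul_pow]
            _ ≤ Real.log x * Real.log x ^ (K + 4) := by gcongr
            _ = _ := by ring
      _ ≤ _ := by gcongr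

end Pool.Agent.TH891.PR
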